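import Pool.Agent.CP72.DetD

/-!
# CP72/Comb: the two bounds for the number of the indices
-/

set_option autoImplicit false

open Finset

namespace Pool.Agent.CP72

open Pool.Agent.CP25 Pool.Agent.CP69

variable {A : Set ℕ} {n k L D Xe J : ℕ} {c1 c2 t : ℝ}

/-- the conclusion for one `n` -/
theorem comb (hS : SzA n k L D Xe) (hT : TyA A n k) (hx : 8 + k ≤ D)
    (hxX : D + J * L + L ≤ Xe) (hL : 1 ≤ L) (hnk : 8 + n * k ≤ n ^ 2)
    (hM : 8 + n * k ≤ D + J * L) (hc1 : 0 ≤ c1) (hc2 : 0 ≤ c2)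
    (h1 : c1 * cI (P0 A n D) D (J * L) - J * t ≤ cI (P1 A n D) D (J * L) ∧
      (cI (P1 A n D) D (J * L) : ℝ) ≤ c2 * cI (P0 A n D) D (J * L) + J * t)
    (h2 : c1 * cI (P1 A n D) D (J * L) - J * t ≤ cI (P2 A n D) D (J * L) ∧
      (cI (P2 A n D) D (J * L) : ℝ) ≤ c2 * cI (P1 A n D) D (J * L) + J * t)
    (h3 : c1 * cI (P1 A n D) D (J * L) - J * t ≤ cI (P3 A n D) D (J * L) ∧
      (cI (P3 A n D) D (J * L) : ℝ) ≤ c2 * cI (P1 A n D) D (J * L) + J * t) :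
    (c1 * (c1 * (n - 2 * D) - J * t) - J * t ≤ num1 A n ∧
      (num1 A n : ℝ) ≤ c2 * (c2 * n + J * t) + J * t + 2 * D) ∧
    (c1 * (c1 * (n - 2 * D) - J * t) - J * t ≤ num2 A n ∧
      (num2 A n : ℝ) ≤ c2 * (c2 * n + J * t) + J * t + 2 * D) := by
  have hD1 : 1 ≤ D := by
    have := hS.k8
    omega
  have g0 : (cI (P0 A n D) D (J * L) : ℝ) ≤ n := by exact_mod_cast T0_le
  have g1 : (n : ℝ) ≤ cI (P0 A n D) D (J * L) + D + D := by
    exact_mod_cast T0_ge hT hnk hM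
  have g2 : (cI (P2 A n D) D (J * L) : ℝ) ≤ num1 A n := by
    exact_mod_cast num1_ge hS hT hx hxX hL hD1
  have g3 : (num1 A n : ℝ) ≤ cI (P2 A n D) D (J * L) + D + D := by
    exact_mod_cast num1_le hT hnk hM
  have g4 : (cI (P3 A n D) D (J * L) : ℝ) ≤ num2 A n := by
    exact_mod_cast num2_ge hS hT hx hxX hL hD1
  have g5 : (num2 A n : ℝ) ≤ cI (P3 A n D) D (J * L) + D + D := by
    exact_mod_cast num2_le hT hnk hM
  have a1 : c1 * (n - 2 * D) - J * t ≤ cI (P1 A n D) D (J * L) := by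
    have : c1 * ((n : ℝ) - 2 * D) ≤ c1 * cI (P0 A n D) D (J * L) :=
      mul_le_mul_of_nonneg_left (by linarith) hc1
    linarith [h1.1]
  have a2 : (cI (P1 A n D) D (J * L) : ℝ) ≤ c2 * n + J * t := by
    have : c2 * (cI (P0 A n D) D (J * L) : ℝ) ≤ c2 * n := mul_le_mul_of_nonneg_left g0 hc2
    linarith [h1.2]
  have a3 : c1 * (c1 * (n - 2 * D) - J * t) ≤ c1 * cI (P1 A n D) D (J * L) :=
    mul_le_mul_of_nonneg_left a1 hc1
  have a4 : c2 * (cI (P1 A n D) D (J * L) : ℝ) ≤ c2 * (c2 * n + J * t) :=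
    mul_le_mul_of_nonneg_left a2 hc2
  refine ⟨⟨?_, ?_⟩, ⟨?_, ?_⟩⟩
  · linarith [h2.1]
  · linarith [h2.2]
  · linarith [h3.1]
  · linarith [h3.2]

end Pool.Agent.CP72
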