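import Pool.Agent.CP69.Cnt

/-!
# CP72/DetA: the sums over a block as weighted sums over a window

`aS` = the elements `a` of the block `[x, x + L)` with rank at most `n - D`, `pf` = the number `p` of `a`, `aP` = those `a` with `p` in the
set. `wP`, `wQ1`, `wQ2`: the number of `a` with a given `p` (`q`), computed from the part of the set outside of the window.
-/

set_option autoImplicit false

open Finset

namespace Pool.Agent.CP72

open Pool.Agent.CP25 Pool.Agent.CP69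

open Classical in
noncomputable def aS (A : Set ℕ) (n x L D : ℕ) : Finset ℕ :=
  (Ico x (x + L)).filter (fun a => a ∈ A ∧ cn A a + 1 + D ≤ n)

noncomputable def pf (A : Set ℕ) (n a : ℕ) : ℕ := n + a - (cn A a + 1)

open Classical in
noncomputable def aP (A : Set ℕ) (n x L D : ℕ) : Finset ℕ :=
  (aS A n x L D).filter (fun a => pf A n a ∈ A)

noncomputable def q1 (A : Set ℕ) (n a : ℕ) : ℕ := el A (pf A n a) + 1 - pf A n a

noncomputable def q2 (A : Set ℕ) (n a : ℕ) : ℕ := el A (pf A n a) + pf A n a + 1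

open Classical in
noncomputable def wP (n x L D R : ℕ) (G : Finset ℕ) (m : ℕ) : ℕ :=
  min R ((aS (G : Set ℕ) n x L D).filter (fun a => pf (G : Set ℕ) n a = m)).card

open Classical in
noncomputable def wQ1 (n x L D R c : ℕ) (G : Finset ℕ) (m : ℕ) : ℕ :=
  min R ((aS (G : Set ℕ) n x L D).filter (fun a => pf (G : Set ℕ) n a ∈ (G : Set ℕ) ∧
    el (G : Set ℕ) (pf (G : Set ℕ) n a - c) + 1 - pf (G : Set ℕ) n a = m)).card

open Classical in
noncomputable def wQ2 (n x L D R : ℕ) (G : Finset ℕ) (m : ℕ) : ℕ :=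
  min R ((aS (G : Set ℕ) n x L D).filter (fun a => pf (G : Set ℕ) n a ∈ (G : Set ℕ) ∧
    el (G : Set ℕ) (pf (G : Set ℕ) n a) + pf (G : Set ℕ) n a + 1 = m)).card

theorem fib (S : Finset ℕ) (f : ℕ → ℕ) (V : Finset ℕ) (hf : ∀ a ∈ S, f a ∈ V) (g : ℕ → ℝ)
    (w : ℕ → ℕ) (hw : ∀ m ∈ V, w m = (S.filter (fun a => f a = m)).card) :
    ∑ m ∈ V, (w m : ℝ) * g m = ∑ a ∈ S, g (f a) := by
  rw [← Finset.sum_fiberwise_of_maps_to hf]
  refine sum_congr rfl fun m hm => ?_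
  rw [hw m hm]
  have h1 : ∑ a ∈ S.filter (fun a => f a = m), g (f a) = ∑ _a ∈ S.filter (fun a => f a = m), g m := by
    refine sum_congr rfl fun a ha => ?_
    rw [(mem_filter.1 ha).2]
  rw [h1, sum_const, nsmul_eq_mul]

theorem card_short {S : Finset ℕ} {R : ℕ} (h : ∀ a ∈ S, ∀ a' ∈ S, a ≤ a' → a' < a + R) :
    S.card ≤ R := by
  rcases S.eq_empty_or_nonempty with h0 | h0
  · rw [h0, card_empty]
    exact Nat.zero_le _
  · obtain ⟨a0, ha0, hmin⟩ := exists_min_image S id h0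
    simp only [id] at hmin
    have hsub : S ⊆ Ico a0 (a0 + R) := by
      intro a ha
      rw [mem_Ico]
      exact ⟨hmin a ha, h a0 ha0 a ha (hmin a ha)⟩
    calc S.card ≤ (Ico a0 (a0 + R)).card := card_le_card hsub
      _ = R := by rw [Nat.card_Ico]; omega

/-- sizes -/
structure SzA (n k L D Xe : ℕ) : Prop where
  k8 : 8 ≤ k
  hw : 16 * (L * k + k + L) ≤ D
  hD : 16 * D ≤ n
  hX : 2 * ((Xe + 2 * n) * k) ≤ n ^ 2

/-- properties of the set -/
structure TyA (A : Set ℕ) (n k : ℕ) : Prop where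
  win : Win A k (n ^ 2)
  uu : ∀ y, n ≤ y → y ≤ n ^ 2 → cn A (4 * y) + 2 ≤ y

section block

variable {A : Set ℕ} {n k L D Xe x : ℕ}

theorem facts (hS : SzA n k L D Xe) (hxX : x + L ≤ Xe) :
    32 * n ≤ n ^ 2 ∧ 2 * (x * k + 2 * (n * k)) ≤ n ^ 2 ∧ 8 * x ≤ x * k ∧ 8 * n ≤ n * k ∧
      L * 8 ≤ L * k ∧ 128 ≤ D := by
  have h1 : (x + 2 * n) * k ≤ (Xe + 2 * n) * k := Nat.mul_le_mul_right _ (by omega)
  have e : (x + 2 * n) * k = x * k + 2 * (n * k) := by ring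
  have h2 : 8 * x ≤ x * k := by
    rw [mul_comm]
    exact Nat.mul_le_mul_left _ hS.k8
  have h3 : 8 * n ≤ n * k := by
    rw [mul_comm]
    exact Nat.mul_le_mul_left _ hS.k8
  have h4 : L * 8 ≤ L * k := Nat.mul_le_mul_left _ hS.k8
  have h5 := hS.hX
  have h6 := hS.k8
  have h7 := hS.hw
  refine ⟨by omega, by omega, h2, h3, h4, by omega⟩

theorem mem_aS {a : ℕ} : a ∈ aS A n x L D ↔ (x ≤ a ∧ a < x + L) ∧ a ∈ A ∧ cn A a + 1 + D ≤ n := by
  classical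
  unfold aS
  rw [mem_filter, mem_Ico]

theorem mem_aP {a : ℕ} : a ∈ aP A n x L D ↔ a ∈ aS A n x L D ∧ pf A n a ∈ A := by
  classical
  unfold aP
  rw [mem_filter]

/-- the facts on `p` for `a ∈ aS` -/
theorem p_facts (hS : SzA n k L D Xe) (hT : TyA A n k) (hx : 8 + k ≤ x) (hxX : x + L ≤ Xe) {a : ℕ}
    (ha : a ∈ aS A n x L D) : pf A n a + cn A a + 1 = n + a ∧ x + D ≤ pf A n a ∧ n ≤ pf A n a ∧
      pf A n a ≤ x + n + L := by
  obtain ⟨s1, s2, s3, s4, s5, s8⟩ := facts hS hxX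
  obtain ⟨⟨h1, h2⟩, h3, h4⟩ := mem_aS.1 ha
  have s6 := hS.hw
  have s7 := hS.hD
  have h5 := hT.win.ne' (x := 8) (y := a) (j := 1) le_rfl (by omega) (by omega)
  have h6 := cn_le (A := A) 8
  unfold pf
  omega

theorem pf_mono (hS : SzA n k L D Xe) (hT : TyA A n k) (hx : 8 + k ≤ x) (hxX : x + L ≤ Xe)
    {a a' : ℕ} (ha : a ∈ aS A n x L D) (ha' : a' ∈ aS A n x L D) (h : a ≤ a') :
    pf A n a ≤ pf A n a' ∧ pf A n a' + a ≤ pf A n a + a' := by
  have h1 := (p_facts hS hT hx hxX ha).1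
  have h2 := (p_facts hS hT hx hxX ha').1
  have h3 := cn_le_add (A := A) h
  have h4 := cn_mono (A := A) h
  omega

theorem pf_far (hS : SzA n k L D Xe) (hT : TyA A n k) (hx : 8 + k ≤ x) (hxX : x + L ≤ Xe)
    {a a' j : ℕ} (ha : a ∈ aS A n x L D) (ha' : a' ∈ aS A n x L D) (h : a + j * k ≤ a') :
    pf A n a + j ≤ pf A n a' := by
  obtain ⟨s1, s2, s3, s4, s5, s8⟩ := facts hS hxX
  have s6 := hS.hw
  have s7 := hS.hD
  have h1 := (p_facts hS hT hx hxX ha).1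
  have h2 := (p_facts hS hT hx hxX ha').1
  obtain ⟨⟨g1, g2⟩, -⟩ := mem_aS.1 ha
  obtain ⟨⟨g3, g4⟩, -⟩ := mem_aS.1 ha'
  have h5 := hT.win.ne' (x := a) (y := a') (j := j) (by omega) h (by omega)
  omega

/-- the facts on the element number `p` -/
theorem b_facts (hS : SzA n k L D Xe) (hT : TyA A n k) (hxX : x + L ≤ Xe) {p : ℕ}
    (hp1 : n ≤ p) (hp : p ≤ x + n + L) :
    el A p ∈ A ∧ el A p < 8 + p * k ∧ cn A (el A p) + 1 = p ∧ 4 * p ≤ el A p ∧
      2 * (p * k) + n * k ≤ n ^ 2 := by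
  obtain ⟨s1, s2, s3, s4, s5, s8⟩ := facts hS hxX
  have s6 := hS.hw
  have s7 := hS.hD
  have h0 : 2 * (p * k) + n * k ≤ n ^ 2 := by
    have h1 := Nat.mul_le_mul_right k hp
    have e : (x + n + L) * k = x * k + n * k + L * k := by ring
    omega
  have h2 := hT.win.el (x := 8) le_rfl p (by omega)
  obtain ⟨b, hb, h3, h4⟩ := exists_el (A := A) (x := 8 + p * k) (p := p) (by omega) (by omega)
  have h5 : el A p = b := el_cn hb h4
  rw [h5]
  refine ⟨hb, h3, h4, ?_, h0⟩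
  by_contra hcon
  have h6 := cn_lt (x := b) (y := 4 * p) hb le_rfl (by omega)
  have h7 : p ≤ p * k := by
    have := hS.k8
    exact Nat.le_mul_of_pos_right _ (by omega)
  have h8 := hT.uu p (by omega) (by omega)
  omega

/-- all facts on `a ∈ aP` -/
theorem all_facts (hS : SzA n k L D Xe) (hT : TyA A n k) (hx : 8 + k ≤ x) (hxX : x + L ≤ Xe)
    {a : ℕ} (ha : a ∈ aP A n x L D) : ∃ p b, pf A n a = p ∧ el A p = b ∧ x ≤ a ∧ a < x + L ∧
      a ∈ A ∧ p ∈ A ∧ b ∈ A ∧ p + cn A a + 1 = n + a ∧ x + D ≤ p ∧ n ≤ p ∧ p ≤ x + n + L ∧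
      b < 8 + p * k ∧ cn A b + 1 = p ∧ 4 * p ≤ b ∧ 2 * (p * k) + n * k ≤ n ^ 2 := by
  obtain ⟨ha', hpA⟩ := mem_aP.1 ha
  obtain ⟨⟨h1, h2⟩, h3, h4⟩ := mem_aS.1 ha'
  obtain ⟨h5, h6, h7, h8⟩ := p_facts hS hT hx hxX ha'
  obtain ⟨g1, g2, g3, g4, g5⟩ := b_facts hS hT hxX h7 h8
  exact ⟨pf A n a, el A (pf A n a), rfl, rfl, h1, h2, h3, hpA, g1, h5, h6, h7, h8, g2, g3, g4, g5⟩

/-- two elements of `aP` -/
theorem two_facts (hS : SzA n k L D Xe) (hT : TyA A n k) (hx : 8 + k ≤ x) (hxX : x + L ≤ Xe)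
    {a a' : ℕ} (ha : a ∈ aP A n x L D) (ha' : a' ∈ aP A n x L D) (h : a ≤ a') :
    pf A n a ≤ pf A n a' ∧ pf A n a' ≤ pf A n a + L ∧
      el A (pf A n a) + pf A n a' ≤ el A (pf A n a') + pf A n a ∧
      el A (pf A n a') ≤ el A (pf A n a) + (L * k + k) := by
  obtain ⟨s1, s2, s3, s4, s5, s8⟩ := facts hS hxX
  have s6 := hS.hw
  have s7 := hS.hD
  obtain ⟨h1, h2⟩ := pf_mono hS hT hx hxX (mem_aP.1 ha).1 (mem_aP.1 ha').1 h
  obtain ⟨p, b, e1, e2, g1, g2, g3, g4, g5, g6, g7, g8, g9, g10, g11, g12, g13⟩ :=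
    all_facts hS hT hx hxX ha
  obtain ⟨p', b', e1', e2', g1', g2', g3', g4', g5', g6', g7', g8', g9', g10', g11', g12', g13'⟩ :=
    all_facts hS hT hx hxX ha'
  rw [e1, e1'] at h1
  rw [e1, e1', e2, e2']
  have hbb : b ≤ b' := by
    by_contra hcon
    have h4 := cn_lt (x := b') (y := b) g5' le_rfl (by omega)
    omega
  have h5 := cn_le_add (A := A) hbb
  have hpL : p' ≤ p + L := by omega
  refine ⟨h1, hpL, by omega, ?_⟩
  by_contra hcon
  have e : (L + 1) * k = L * k + k := by ring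
  have h4 := hT.win.el (x := b) (by omega) (L + 1) (by
    rw [e]
    omega)
  rw [e] at h4
  have h6 := cn_mono (A := A) (x := b + (L * k + k)) (y := b') (by omega)
  omega

theorem fibP (hS : SzA n k L D Xe) (hT : TyA A n k) (hx : 8 + k ≤ x) (hxX : x + L ≤ Xe)
    (S : Finset ℕ) (hSa : ∀ a ∈ S, a ∈ aS A n x L D) (m : ℕ) (hm : ∀ a ∈ S, pf A n a = m) :
    S.card ≤ k ^ 2 := by
  refine card_short fun a ha a' ha' h => ?_
  by_contra hcon
  have hk : k ≤ k ^ 2 := by nlinarith [hS.k8]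
  have h1 := pf_far hS hT hx hxX (j := 1) (hSa a ha) (hSa a' ha') (by omega)
  rw [hm a ha, hm a' ha'] at h1
  omega

theorem fibQ1 (hS : SzA n k L D Xe) (hT : TyA A n k) (hx : 8 + k ≤ x) (hxX : x + L ≤ Xe)
    (S : Finset ℕ) (hSa : ∀ a ∈ S, a ∈ aP A n x L D) (m : ℕ) (hm : ∀ a ∈ S, q1 A n a = m) :
    S.card ≤ k ^ 2 := by
  refine card_short fun a ha a' ha' h => ?_
  obtain ⟨s1, s2, s3, s4, s5, s8⟩ := facts hS hxX
  have s6 := hS.hw
  have s7 := hS.hD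
  by_contra hcon
  have e0 : k ^ 2 = k * k := by ring
  have h1 := pf_far hS hT hx hxX (j := k) (mem_aP.1 (hSa a ha)).1 (mem_aP.1 (hSa a' ha')).1
    (by omega)
  obtain ⟨h2, h3, h4, h5⟩ := two_facts hS hT hx hxX (hSa a ha) (hSa a' ha') h
  obtain ⟨p, b, e1, e2, g1, g2, g3, g4, g5, g6, g7, g8, g9, g10, g11, g12, g13⟩ :=
    all_facts hS hT hx hxX (hSa a ha)
  obtain ⟨p', b', e1', e2', g1', g2', g3', g4', g5', g6', g7', g8', g9', g10', g11', g12', g13'⟩ :=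
    all_facts hS hT hx hxX (hSa a' ha')
  have hq := hm a ha
  have hq' := hm a' ha'
  unfold q1 at hq hq'
  rw [e1, e2] at hq
  rw [e1', e2'] at hq'
  rw [e1, e1'] at h1 h2 h3
  rw [e1, e1', e2, e2'] at h4 h5
  have h6 := hT.win.ne' (x := b) (y := b') (j := 1) (by omega) (by omega) (by omega)
  omega

theorem fibQ2 (hS : SzA n k L D Xe) (hT : TyA A n k) (hx : 8 + k ≤ x) (hxX : x + L ≤ Xe)
    (S : Finset ℕ) (hSa : ∀ a ∈ S, a ∈ aP A n x L D) (m : ℕ) (hm : ∀ a ∈ S, q2 A n a = m) :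
    S.card ≤ k ^ 2 := by
  refine card_short fun a ha a' ha' h => ?_
  by_contra hcon
  have e0 : k ^ 2 = k * k := by ring
  have h1 := pf_far hS hT hx hxX (j := k) (mem_aP.1 (hSa a ha)).1 (mem_aP.1 (hSa a' ha')).1
    (by omega)
  obtain ⟨h2, h3, h4, h5⟩ := two_facts hS hT hx hxX (hSa a ha) (hSa a' ha') h
  have hq := hm a ha
  have hq' := hm a' ha'
  have hk8 := hS.k8
  unfold q2 at hq hq'
  omega

/-- the sum over the numbers `p` -/
theorem sumP (hS : SzA n k L D Xe) (hT : TyA A n k) (hx : 8 + k ≤ x) (hxX : x + L ≤ Xe)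
    (g : ℕ → ℝ) :
    ∑ m ∈ Icc (x + D) (x + n + L),
      (wP n x L D (k ^ 2) (trS A (n ^ 2) (Icc (x + D) (x + n + L))) m : ℝ) * g m =
      ∑ a ∈ aS A n x L D, g (pf A n a) := by
  classical
  obtain ⟨s1, s2, s3, s4, s5, s8⟩ := facts hS hxX
  have s6 := hS.hw
  have s7 := hS.hD
  have hcn : ∀ a, a < x + L → cn (trS A (n ^ 2) (Icc (x + D) (x + n + L)) : Set ℕ) a = cn A a := by
    intro a ha
    exact cn_tr_lo (fun m hm => by rw [mem_Icc] at hm; omega) (by omega)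
  have haS : aS (trS A (n ^ 2) (Icc (x + D) (x + n + L)) : Set ℕ) n x L D = aS A n x L D := by
    ext a
    rw [mem_aS, mem_aS, mem_coe, mem_trS, mem_Icc]
    constructor
    · rintro ⟨⟨h1, h2⟩, ⟨h3, h4, h5⟩, h6⟩
      rw [hcn a h2] at h6
      exact ⟨⟨h1, h2⟩, h5, h6⟩
    · rintro ⟨⟨h1, h2⟩, h5, h6⟩
      rw [hcn a h2]
      exact ⟨⟨h1, h2⟩, ⟨by omega, by omega, h5⟩, h6⟩
  refine fib _ _ _ (fun a ha => ?_) _ _ (fun m hm => ?_)
  · obtain ⟨h5, h6, h7, h8⟩ := p_facts hS hT hx hxX ha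
    rw [mem_Icc]
    exact ⟨h6, h8⟩
  · unfold wP
    rw [haS]
    have he : (aS A n x L D).filter
        (fun a => pf (trS A (n ^ 2) (Icc (x + D) (x + n + L)) : Set ℕ) n a = m) =
        (aS A n x L D).filter (fun a => pf A n a = m) := by
      refine filter_congr fun a ha => ?_
      unfold pf
      rw [hcn a (mem_aS.1 ha).1.2]
    rw [he, min_eq_right]
    exact fibP hS hT hx hxX _ (fun a ha => (mem_filter.1 ha).1) m (fun a ha => (mem_filter.1 ha).2)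

end block

end Pool.Agent.CP72
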