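import Pool.Agent.CP72.DetA

/-!
# CP72/DetB: the sums over the positions `q`
-/

set_option autoImplicit false

open Finset

namespace Pool.Agent.CP72

open Pool.Agent.CP25 Pool.Agent.CP69

section block

variable {A : Set ℕ} {n k L D Xe x : ℕ}

theorem exists_min_aP (hne : (aP A n x L D).Nonempty) :
    ∃ a0 ∈ aP A n x L D, ∀ a ∈ aP A n x L D, a0 ≤ a := by
  obtain ⟨a0, ha0, hmin⟩ := exists_min_image (aP A n x L D) id hne
  exact ⟨a0, ha0, hmin⟩

/-- the set `aS` does not depend on a window to the right of the block -/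
theorem aS_tr {V : Finset ℕ} (hxn : x + L ≤ n ^ 2) (hV : ∀ m ∈ V, x + L ≤ m) :
    aS (trS A (n ^ 2) V : Set ℕ) n x L D = aS A n x L D ∧
      ∀ a, a < x + L → pf (trS A (n ^ 2) V : Set ℕ) n a = pf A n a := by
  have hcn : ∀ a, a < x + L → cn (trS A (n ^ 2) V : Set ℕ) a = cn A a := by
    intro a ha
    exact cn_tr_lo (fun m hm => by have := hV m hm; omega) (by omega)
  constructor
  · ext a
    rw [mem_aS, mem_aS, mem_coe, mem_trS]
    constructor
    · rintro ⟨⟨h1, h2⟩, ⟨h3, h4, h5⟩, h6⟩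
      rw [hcn a h2] at h6
      exact ⟨⟨h1, h2⟩, h5, h6⟩
    · rintro ⟨⟨h1, h2⟩, h5, h6⟩
      rw [hcn a h2]
      exact ⟨⟨h1, h2⟩, ⟨by omega, fun h => by have := hV a h; omega, h5⟩, h6⟩
  · intro a ha
    unfold pf
    rw [hcn a ha]

theorem sumQ1 (hS : SzA n k L D Xe) (hT : TyA A n k) (hx : 8 + k ≤ x) (hxX : x + L ≤ Xe)
    (hne : (aP A n x L D).Nonempty) :
    ∃ v, x + n + L < v ∧ v + (L * k + k + L) ≤ n ^ 2 ∧ ∀ g : ℕ → ℝ,
      ∑ m ∈ Icc v (v + (L * k + k + L)),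
        (wQ1 n x L D (k ^ 2) (cV A (Icc v (v + (L * k + k + L))))
          (trS A (n ^ 2) (Icc v (v + (L * k + k + L)))) m : ℝ) * g m =
        ∑ a ∈ aP A n x L D, g (q1 A n a) := by
  classical
  obtain ⟨s1, s2, s3, s4, s5, s8⟩ := facts hS hxX
  have s6 := hS.hw
  have s7 := hS.hD
  obtain ⟨a0, ha0, hmin⟩ := exists_min_aP hne
  obtain ⟨P0, b0, e1, e2, g1, g2, g3, g4, g5, g6, g7, g8, g9, g10, g11, g12, g13⟩ :=
    all_facts hS hT hx hxX ha0
  obtain ⟨v, hv⟩ : ∃ v, v + P0 = b0 + 1 := ⟨b0 + 1 - P0, by omega⟩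
  obtain ⟨w, hw⟩ : ∃ w, w = L * k + k + L := ⟨_, rfl⟩
  have hv1 : x + n + L < v := by omega
  have hv2 : v + w ≤ n ^ 2 := by omega
  rw [← hw]
  refine ⟨v, hv1, hv2, fun g => ?_⟩
  obtain ⟨t1, t2⟩ := aS_tr (A := A) (n := n) (x := x) (L := L) (D := D) (V := Icc v (v + w))
    (by omega) (fun m hm => by rw [mem_Icc] at hm; omega)
  have hq : ∀ a ∈ aP A n x L D, v ≤ q1 A n a ∧ q1 A n a ≤ v + w ∧
      pf A n a ∈ trS A (n ^ 2) (Icc v (v + w)) ∧
      el (trS A (n ^ 2) (Icc v (v + w)) : Set ℕ) (pf A n a - cV A (Icc v (v + w))) =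
        el A (pf A n a) := by
    intro a ha
    obtain ⟨h2, h3, h4, h5⟩ := two_facts hS hT hx hxX ha0 ha (hmin a ha)
    obtain ⟨p, b, e1', e2', g1', g2', g3', g4', g5', g6', g7', g8', g9', g10', g11', g12', g13'⟩ :=
      all_facts hS hT hx hxX ha
    rw [e1, e1'] at h2 h3
    rw [e1, e1', e2, e2'] at h4
    rw [e1, e1', e2, e2'] at h5
    have e3 : q1 A n a = b + 1 - p := by
      unfold q1
      rw [e1', e2']
    have hpk : p ≤ p * k := Nat.le_mul_of_pos_right _ (by have := hS.k8; omega)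
    rw [e3, e1', e2']
    refine ⟨by omega, by omega, ?_, ?_⟩
    · rw [mem_trS, mem_Icc]
      exact ⟨by omega, by omega, g4'⟩
    · have h6 : b ∈ (trS A (n ^ 2) (Icc v (v + w)) : Set ℕ) := by
        rw [mem_coe, mem_trS, mem_Icc]
        exact ⟨by omega, by omega, g5'⟩
      have h7 := cn_tr_hi (A := A) (X := n ^ 2) (V := Icc v (v + w)) (b := b)
        (fun m hm => by rw [mem_Icc] at hm; omega) (by omega)
      exact el_cn h6 (by omega)
  refine fib _ _ _ (fun a ha => ?_) _ _ (fun m hm => ?_)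
  · rw [mem_Icc]
    exact ⟨(hq a ha).1, (hq a ha).2.1⟩
  · unfold wQ1
    rw [t1]
    have he : (aS A n x L D).filter
        (fun a => pf (trS A (n ^ 2) (Icc v (v + w)) : Set ℕ) n a ∈
            (trS A (n ^ 2) (Icc v (v + w)) : Set ℕ) ∧
          el (trS A (n ^ 2) (Icc v (v + w)) : Set ℕ)
            (pf (trS A (n ^ 2) (Icc v (v + w)) : Set ℕ) n a - cV A (Icc v (v + w))) + 1 -
            pf (trS A (n ^ 2) (Icc v (v + w)) : Set ℕ) n a = m) =
        (aP A n x L D).filter (fun a => q1 A n a = m) := by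
      ext a
      rw [mem_filter, mem_filter, mem_aP]
      constructor
      · rintro ⟨h1, h2, h3⟩
        have hax := (mem_aS.1 h1).1.2
        rw [t2 a hax] at h2 h3
        rw [mem_coe, mem_trS] at h2
        have haP : a ∈ aP A n x L D := mem_aP.2 ⟨h1, h2.2.2⟩
        refine ⟨⟨h1, h2.2.2⟩, ?_⟩
        rw [(hq a haP).2.2.2] at h3
        exact h3
      · rintro ⟨⟨h1, h2⟩, h3⟩
        have hax := (mem_aS.1 h1).1.2
        have haP : a ∈ aP A n x L D := mem_aP.2 ⟨h1, h2⟩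
        rw [t2 a hax]
        refine ⟨h1, mem_coe.2 (hq a haP).2.2.1, ?_⟩
        rw [(hq a haP).2.2.2]
        exact h3
    rw [he, min_eq_right]
    exact fibQ1 hS hT hx hxX _ (fun a ha => (mem_filter.1 ha).1) m (fun a ha => (mem_filter.1 ha).2)

theorem sumQ2 (hS : SzA n k L D Xe) (hT : TyA A n k) (hx : 8 + k ≤ x) (hxX : x + L ≤ Xe)
    (hne : (aP A n x L D).Nonempty) :
    ∃ v, x + n + L < v ∧ v + (L * k + k + L) ≤ n ^ 2 ∧ ∀ g : ℕ → ℝ,
      ∑ m ∈ Icc v (v + (L * k + k + L)),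
        (wQ2 n x L D (k ^ 2)
          (trS A (n ^ 2) (Icc v (v + (L * k + k + L)))) m : ℝ) * g m =
        ∑ a ∈ aP A n x L D, g (q2 A n a) := by
  classical
  obtain ⟨s1, s2, s3, s4, s5, s8⟩ := facts hS hxX
  have s6 := hS.hw
  have s7 := hS.hD
  obtain ⟨a0, ha0, hmin⟩ := exists_min_aP hne
  obtain ⟨P0, b0, e1, e2, g1, g2, g3, g4, g5, g6, g7, g8, g9, g10, g11, g12, g13⟩ :=
    all_facts hS hT hx hxX ha0
  obtain ⟨v, hv⟩ : ∃ v, v = b0 + P0 + 1 := ⟨_, rfl⟩
  obtain ⟨w, hw⟩ : ∃ w, w = L * k + k + L := ⟨_, rfl⟩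
  have hv1 : x + n + L < v := by omega
  have hpk0 : P0 ≤ P0 * k := Nat.le_mul_of_pos_right _ (by have := hS.k8; omega)
  have hv2 : v + w ≤ n ^ 2 := by omega
  rw [← hw]
  refine ⟨v, hv1, hv2, fun g => ?_⟩
  obtain ⟨t1, t2⟩ := aS_tr (A := A) (n := n) (x := x) (L := L) (D := D) (V := Icc v (v + w))
    (by omega) (fun m hm => by rw [mem_Icc] at hm; omega)
  have hq : ∀ a ∈ aP A n x L D, v ≤ q2 A n a ∧ q2 A n a ≤ v + w ∧
      pf A n a ∈ trS A (n ^ 2) (Icc v (v + w)) ∧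
      el (trS A (n ^ 2) (Icc v (v + w)) : Set ℕ) (pf A n a) = el A (pf A n a) := by
    intro a ha
    obtain ⟨h2, h3, h4, h5⟩ := two_facts hS hT hx hxX ha0 ha (hmin a ha)
    obtain ⟨p, b, e1', e2', g1', g2', g3', g4', g5', g6', g7', g8', g9', g10', g11', g12', g13'⟩ :=
      all_facts hS hT hx hxX ha
    rw [e1, e1'] at h2 h3
    rw [e1, e1', e2, e2'] at h4
    rw [e1, e1', e2, e2'] at h5
    have e3 : q2 A n a = b + p + 1 := by
      unfold q2
      rw [e1', e2']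
    have hpk : p ≤ p * k := Nat.le_mul_of_pos_right _ (by have := hS.k8; omega)
    rw [e3, e1', e2']
    refine ⟨by omega, by omega, ?_, ?_⟩
    · rw [mem_trS, mem_Icc]
      exact ⟨by omega, by omega, g4'⟩
    · have h6 : b ∈ (trS A (n ^ 2) (Icc v (v + w)) : Set ℕ) := by
        rw [mem_coe, mem_trS, mem_Icc]
        exact ⟨by omega, by omega, g5'⟩
      have h7 := cn_tr_lo (A := A) (X := n ^ 2) (V := Icc v (v + w)) (a := b)
        (fun m hm => by rw [mem_Icc] at hm; omega) (by omega)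
      exact el_cn h6 (by omega)
  refine fib _ _ _ (fun a ha => ?_) _ _ (fun m hm => ?_)
  · rw [mem_Icc]
    exact ⟨(hq a ha).1, (hq a ha).2.1⟩
  · unfold wQ2
    rw [t1]
    have he : (aS A n x L D).filter
        (fun a => pf (trS A (n ^ 2) (Icc v (v + w)) : Set ℕ) n a ∈
            (trS A (n ^ 2) (Icc v (v + w)) : Set ℕ) ∧
          el (trS A (n ^ 2) (Icc v (v + w)) : Set ℕ)
            (pf (trS A (n ^ 2) (Icc v (v + w)) : Set ℕ) n a) +
            pf (trS A (n ^ 2) (Icc v (v + w)) : Set ℕ) n a + 1 = m) =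
        (aP A n x L D).filter (fun a => q2 A n a = m) := by
      ext a
      rw [mem_filter, mem_filter, mem_aP]
      constructor
      · rintro ⟨h1, h2, h3⟩
        have hax := (mem_aS.1 h1).1.2
        rw [t2 a hax] at h2 h3
        rw [mem_coe, mem_trS] at h2
        have haP : a ∈ aP A n x L D := mem_aP.2 ⟨h1, h2.2.2⟩
        refine ⟨⟨h1, h2.2.2⟩, ?_⟩
        rw [(hq a haP).2.2.2] at h3
        exact h3
      · rintro ⟨⟨h1, h2⟩, h3⟩
        have hax := (mem_aS.1 h1).1.2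
        have haP : a ∈ aP A n x L D := mem_aP.2 ⟨h1, h2⟩
        rw [t2 a hax]
        refine ⟨h1, mem_coe.2 (hq a haP).2.2.1, ?_⟩
        rw [(hq a haP).2.2.2]
        exact h3
    rw [he, min_eq_right]
    exact fibQ2 hS hT hx hxX _ (fun a ha => (mem_filter.1 ha).1) m (fun a ha => (mem_filter.1 ha).2)

end block

end Pool.Agent.CP72
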