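import Pool.Agent.CP72.DetB

/-!
# CP72/DetC: the counts, and their sum over the blocks
-/

set_option autoImplicit false

open Finset

namespace Pool.Agent.CP72

open Pool.Agent.CP25 Pool.Agent.CP69

open Classical in
noncomputable def ind (A : Set ℕ) (m : ℕ) : ℝ := if m ∈ A then 1 else 0

open Classical in
/-- the number of `a` in `[x, x + L)` with `P` -/
noncomputable def cI (P : ℕ → Prop) (x L : ℕ) : ℕ := ((Ico x (x + L)).filter P).card

def P0 (A : Set ℕ) (n D : ℕ) (a : ℕ) : Prop := a ∈ A ∧ cn A a + 1 + D ≤ n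

def P1 (A : Set ℕ) (n D : ℕ) (a : ℕ) : Prop := P0 A n D a ∧ pf A n a ∈ A

def P2 (A : Set ℕ) (n D : ℕ) (a : ℕ) : Prop := P1 A n D a ∧ q1 A n a ∈ A

def P3 (A : Set ℕ) (n D : ℕ) (a : ℕ) : Prop := P1 A n D a ∧ q2 A n a ∈ A

theorem cI_mul (P : ℕ → Prop) (x L J : ℕ) :
    cI P x (J * L) = ∑ i ∈ range J, cI P (x + i * L) L := by
  classical
  induction J with
  | zero =>
    unfold cI
    simp
  | succ J ih =>
    rw [sum_range_succ, ← ih]
    unfold cI
    have e : (J + 1) * L = J * L + L := by ring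
    rw [e, ← card_union_of_disjoint]
    · rw [← filter_union]
      congr 2
      ext m
      simp only [mem_union, mem_Ico]
      omega
    · rw [disjoint_left]
      intro m hm hm'
      rw [mem_filter, mem_Ico] at hm hm'
      omega

section block

variable {A : Set ℕ} {n k L D Xe x : ℕ}

theorem card_aS : (aS A n x L D).card = cI (P0 A n D) x L := by
  classical
  unfold aS cI P0
  congr

theorem card_aP : (aP A n x L D).card = cI (P1 A n D) x L := by
  classical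
  have h : aP A n x L D = (Ico x (x + L)).filter (P1 A n D) := by
    ext a
    rw [mem_aP, mem_aS, mem_filter, mem_Ico]
    unfold P1 P0
    tauto
  rw [h]
  unfold cI
  congr

theorem lin {S : Finset ℕ} {f : ℕ → ℕ} {pr : ℕ → ℝ} {Y : ℕ} {c1 c2 t : ℝ}
    (hf : ∀ a ∈ S, n ≤ f a ∧ f a ≤ Y) (hc : ∀ m, n ≤ m → m ≤ Y → c1 ≤ pr m ∧ pr m ≤ c2)
    (h : |∑ a ∈ S, (ind A (f a) - pr (f a))| ≤ t) (T : ℕ)
    (hT : ∑ a ∈ S, ind A (f a) = T) :
    c1 * S.card - t ≤ T ∧ (T : ℝ) ≤ c2 * S.card + t := by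
  rw [sum_sub_distrib, hT] at h
  have h1 : c1 * S.card ≤ ∑ a ∈ S, pr (f a) := by
    calc c1 * S.card = ∑ _a ∈ S, c1 := by rw [sum_const, nsmul_eq_mul, mul_comm]
      _ ≤ _ := sum_le_sum fun a ha => (hc _ (hf a ha).1 (hf a ha).2).1
  have h2 : ∑ a ∈ S, pr (f a) ≤ c2 * S.card := by
    calc _ ≤ ∑ _a ∈ S, c2 := sum_le_sum fun a ha => (hc _ (hf a ha).1 (hf a ha).2).2
      _ = c2 * S.card := by rw [sum_const, nsmul_eq_mul, mul_comm]
  rw [abs_le] at h
  constructor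
  · linarith [h.1]
  · linarith [h.2]

theorem sum_ind (S : Finset ℕ) (f : ℕ → ℕ) (P : ℕ → Prop)
    (hP : ∀ a, a ∈ S ∧ f a ∈ A ↔ (x ≤ a ∧ a < x + L) ∧ P a) :
    ∑ a ∈ S, ind A (f a) = (cI P x L : ℝ) := by
  classical
  unfold ind
  rw [← Finset.sum_filter, sum_const, nsmul_eq_mul, mul_one]
  unfold cI
  congr 2
  ext a
  rw [mem_filter, mem_filter, mem_Ico]
  exact hP a

/-- the inequalities for one block -/
theorem blkC (hS : SzA n k L D Xe) (hT : TyA A n k) (hx : 8 + k ≤ x) (hxX : x + L ≤ Xe)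
    {pr : ℕ → ℝ} {Y : ℕ} {c1 c2 t : ℝ} (ht : 0 ≤ t) (hY : 9 + (Xe + 2 * n) * (k + 1) ≤ Y)
    (hc : ∀ m, n ≤ m → m ≤ Y → c1 ≤ pr m ∧ pr m ≤ c2)
    (h1 : |∑ m ∈ Icc (x + D) (x + n + L),
      (wP n x L D (k ^ 2) (trS A (n ^ 2) (Icc (x + D) (x + n + L))) m : ℝ) * (ind A m - pr m)| ≤ t)
    (h2 : ∀ v, x + n + L < v → v + (L * k + k + L) ≤ n ^ 2 →
      |∑ m ∈ Icc v (v + (L * k + k + L)),
        (wQ1 n x L D (k ^ 2) (cV A (Icc v (v + (L * k + k + L))))
          (trS A (n ^ 2) (Icc v (v + (L * k + k + L)))) m : ℝ) * (ind A m - pr m)| ≤ t)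
    (h3 : ∀ v, x + n + L < v → v + (L * k + k + L) ≤ n ^ 2 →
      |∑ m ∈ Icc v (v + (L * k + k + L)),
        (wQ2 n x L D (k ^ 2)
          (trS A (n ^ 2) (Icc v (v + (L * k + k + L)))) m : ℝ) * (ind A m - pr m)| ≤ t) :
    (c1 * cI (P0 A n D) x L - t ≤ cI (P1 A n D) x L ∧
      (cI (P1 A n D) x L : ℝ) ≤ c2 * cI (P0 A n D) x L + t) ∧
    (c1 * cI (P1 A n D) x L - t ≤ cI (P2 A n D) x L ∧
      (cI (P2 A n D) x L : ℝ) ≤ c2 * cI (P1 A n D) x L + t) ∧
    (c1 * cI (P1 A n D) x L - t ≤ cI (P3 A n D) x L ∧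
      (cI (P3 A n D) x L : ℝ) ≤ c2 * cI (P1 A n D) x L + t) := by
  classical
  obtain ⟨s1, s2, s3, s4, s5, s8⟩ := facts hS hxX
  have s6 := hS.hw
  have s7 := hS.hD
  have hkY : ∀ p, p ≤ x + n + L → 9 + p * k + p ≤ Y := by
    intro p hp
    have g1 : p * (k + 1) ≤ (Xe + 2 * n) * (k + 1) := Nat.mul_le_mul_right _ (by omega)
    have e : p * (k + 1) = p * k + p := by ring
    omega
  rw [← card_aS, ← card_aP]
  have hpf : ∀ a ∈ aS A n x L D, n ≤ pf A n a ∧ pf A n a ≤ Y := by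
    intro a ha
    obtain ⟨g1, g2, g3, g4⟩ := p_facts hS hT hx hxX ha
    have g5 := hkY _ g4
    exact ⟨g3, by omega⟩
  have hq : ∀ a ∈ aP A n x L D, (n ≤ q1 A n a ∧ q1 A n a ≤ Y) ∧ (n ≤ q2 A n a ∧ q2 A n a ≤ Y) := by
    intro a ha
    obtain ⟨p, b, e1, e2, g1, g2, g3, g4, g5, g6, g7, g8, g9, g10, g11, g12, g13⟩ :=
      all_facts hS hT hx hxX ha
    have g14 := hkY p g9
    unfold q1 q2
    rw [e1, e2]
    omega
  refine ⟨?_, ?_, ?_⟩
  · rw [sumP hS hT hx hxX] at h1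
    rw [card_aP]
    refine lin hpf hc h1 _ (sum_ind _ _ _ fun a => ?_)
    rw [mem_aS]
    unfold P1 P0
    tauto
  · rcases (aP A n x L D).eq_empty_or_nonempty with h0 | h0
    · have h4 : cI (P2 A n D) x L = 0 := by
        have h5 : cI (P2 A n D) x L ≤ cI (P1 A n D) x L := by
          unfold cI
          refine card_le_card fun a ha => ?_
          rw [mem_filter] at ha ⊢
          exact ⟨ha.1, ha.2.1⟩
        rw [← card_aP, h0, card_empty] at h5
        omega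
      rw [h0, h4, card_empty]
      push_cast
      constructor <;> linarith
    · obtain ⟨v, hv1, hv2, hv3⟩ := sumQ1 hS hT hx hxX h0
      have h4 := h2 v hv1 hv2
      rw [hv3] at h4
      refine lin (fun a ha => (hq a ha).1) hc h4 _ (sum_ind _ _ _ fun a => ?_)
      rw [mem_aP, mem_aS]
      unfold P2 P1 P0
      tauto
  · rcases (aP A n x L D).eq_empty_or_nonempty with h0 | h0
    · have h4 : cI (P3 A n D) x L = 0 := by
        have h5 : cI (P3 A n D) x L ≤ cI (P1 A n D) x L := by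
          unfold cI
          refine card_le_card fun a ha => ?_
          rw [mem_filter] at ha ⊢
          exact ⟨ha.1, ha.2.1⟩
        rw [← card_aP, h0, card_empty] at h5
        omega
      rw [h0, h4, card_empty]
      push_cast
      constructor <;> linarith
    · obtain ⟨v, hv1, hv2, hv3⟩ := sumQ2 hS hT hx hxX h0
      have h4 := h3 v hv1 hv2
      rw [hv3] at h4
      refine lin (fun a ha => (hq a ha).2) hc h4 _ (sum_ind _ _ _ fun a => ?_)
      rw [mem_aP, mem_aS]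
      unfold P3 P1 P0
      tauto

end block

/-- the sum of the inequalities -/
theorem sumC {P Q : ℕ → Prop} {x L J : ℕ} {c1 c2 t : ℝ}
    (h : ∀ i < J, c1 * cI P (x + i * L) L - t ≤ cI Q (x + i * L) L ∧
      (cI Q (x + i * L) L : ℝ) ≤ c2 * cI P (x + i * L) L + t) :
    c1 * cI P x (J * L) - J * t ≤ cI Q x (J * L) ∧
      (cI Q x (J * L) : ℝ) ≤ c2 * cI P x (J * L) + J * t := by
  rw [cI_mul, cI_mul]
  push_cast
  have e : (J : ℝ) * t = ∑ _i ∈ range J, t := by rw [sum_const, card_range, nsmul_eq_mul]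
  rw [e, mul_sum, mul_sum, ← sum_sub_distrib, ← sum_add_distrib]
  exact ⟨sum_le_sum fun i hi => (h i (mem_range.1 hi)).1,
    sum_le_sum fun i hi => (h i (mem_range.1 hi)).2⟩

end Pool.Agent.CP72
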