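import Pool.Agent.CP72.DetC

/-!
# CP72/DetD: the counts of the elements `a` and the number of the indices
-/

set_option autoImplicit false

open Finset

namespace Pool.Agent.CP72

open Pool.Agent.CP25 Pool.Agent.CP69

section block

variable {A : Set ℕ} {n k L D Xe x M : ℕ}

theorem el_facts (hT : TyA A n k) (hnk : 8 + n * k ≤ n ^ 2) {j : ℕ} (h1 : 1 ≤ j) (hj : j ≤ n) :
    el A j ∈ A ∧ cn A (el A j) + 1 = j ∧ el A j < 8 + n * k := by
  have hjk : j * k ≤ n * k := Nat.mul_le_mul_right _ hj
  have h2 := hT.win.el (x := 8) le_rfl j (by omega)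
  obtain ⟨b, hb, h3, h4⟩ := exists_el (A := A) (x := 8 + j * k) (p := j) h1 (by omega)
  have h5 : el A j = b := el_cn hb h4
  rw [h5]
  exact ⟨hb, h4, by omega⟩

theorem cn_inj {a a' : ℕ} (ha : a ∈ A) (ha' : a' ∈ A) (h : cn A a = cn A a') : a = a' := by
  rcases lt_trichotomy a a' with h1 | h1 | h1
  · have := cn_lt (x := a) (y := a') ha le_rfl h1
    omega
  · exact h1
  · have := cn_lt (x := a') (y := a) ha' le_rfl h1
    omega

theorem T0_le : cI (P0 A n D) x M ≤ n := by
  classical
  unfold cI
  calc _ ≤ (range n).card := by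
        refine card_le_card_of_injOn (fun a => cn A a) ?_ ?_
        · intro a ha
          rw [mem_coe, mem_filter] at ha
          rw [mem_coe, mem_range]
          have := ha.2.2
          beta_reduce
          omega
        · intro a ha a' ha' h
          rw [mem_coe, mem_filter] at ha ha'
          exact cn_inj ha.2.1 ha'.2.1 h
    _ = n := card_range n

theorem T0_ge (hT : TyA A n k) (hnk : 8 + n * k ≤ n ^ 2) (hM : 8 + n * k ≤ x + M) :
    n ≤ cI (P0 A n D) x M + D + x := by
  classical
  have h1 : (Icc 1 (n - D)).card ≤ (range x ∪ (Ico x (x + M)).filter (P0 A n D)).card := by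
    refine card_le_card_of_injOn (fun j => el A j) ?_ ?_
    · intro j hj
      rw [mem_coe, mem_Icc] at hj
      obtain ⟨g1, g2, g3⟩ := el_facts hT hnk hj.1 (by omega)
      rw [mem_coe, mem_union, mem_range, mem_filter, mem_Ico]
      beta_reduce
      by_cases h : el A j < x
      · exact Or.inl h
      · exact Or.inr ⟨⟨by omega, by omega⟩, g1, by omega⟩
    · intro j hj j' hj' h
      rw [mem_coe, mem_Icc] at hj hj'
      obtain ⟨g1, g2, g3⟩ := el_facts hT hnk hj.1 (by omega)
      obtain ⟨g1', g2', g3'⟩ := el_facts hT hnk hj'.1 (by omega)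
      simp only at h
      rw [h] at g2
      omega
  have h2 := card_union_le (range x) ((Ico x (x + M)).filter (P0 A n D))
  rw [card_range] at h2
  rw [Nat.card_Icc] at h1
  unfold cI
  have h3 : ((Ico x (x + M)).filter (P0 A n D)).card =
      @card ℕ (@filter ℕ (P0 A n D) (fun a => Classical.propDecidable (P0 A n D a))
        (Ico x (x + M))) := by
    congr
  omega

/-- the facts for one `a`, block `[a, a + L)` -/
theorem one_facts (hS : SzA n k L D Xe) (hT : TyA A n k) (hx : 8 + k ≤ x)
    (hxX : x + M + L ≤ Xe) (hL : 1 ≤ L) {a : ℕ} (ha1 : x ≤ a) (ha2 : a < x + M)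
    (ha : P1 A n D a) : pf A n a + cn A a + 1 = n + a ∧ pf A n a ∈ A ∧
      pf A n a ≤ el A (pf A n a) := by
  have h1 : a ∈ aP A n a L D := mem_aP.2 ⟨mem_aS.2 ⟨⟨le_rfl, by omega⟩, ha.1⟩, ha.2⟩
  obtain ⟨p, b, e1, e2, g1, g2, g3, g4, g5, g6, g7, g8, g9, g10, g11, g12, g13⟩ :=
    all_facts hS hT (by omega) (by omega) h1
  rw [e1, e2]
  exact ⟨g6, g4, by omega⟩

theorem num1_ge (hS : SzA n k L D Xe) (hT : TyA A n k) (hx : 8 + k ≤ x)
    (hxX : x + M + L ≤ Xe) (hL : 1 ≤ L) (hD1 : 1 ≤ D) : cI (P2 A n D) x M ≤ num1 A n := by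
  classical
  unfold cI num1
  refine card_le_card_of_injOn (fun a => n - (cn A a + 1)) ?_ ?_
  · intro a ha
    rw [mem_coe, mem_filter, mem_Ico] at ha
    obtain ⟨⟨h1, h2⟩, h3, h4⟩ := ha
    obtain ⟨g1, g2, g3⟩ := one_facts hS hT hx hxX hL h1 h2 h3
    have h5 := h3.1.2
    have h7 : n - (n - (cn A a + 1)) = cn A a + 1 := by omega
    have h8 : el A (n - (n - (cn A a + 1))) = a := el_cn h3.1.1 h7.symm
    have h9 : n - (cn A a + 1) + el A (n - (n - (cn A a + 1))) = pf A n a := by
      rw [h8]
      omega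
    rw [mem_coe, mem_filter, mem_range]
    beta_reduce
    refine ⟨by omega, by omega, by omega, by rw [h9]; exact g2, q1 A n a, h4, ?_⟩
    rw [h9]
    unfold q1
    omega
  · intro a ha a' ha' h
    rw [mem_coe, mem_filter] at ha ha'
    have h5 := ha.2.1.1.2
    have h5' := ha'.2.1.1.2
    simp only at h
    exact cn_inj ha.2.1.1.1 ha'.2.1.1.1 (by omega)

theorem num2_ge (hS : SzA n k L D Xe) (hT : TyA A n k) (hx : 8 + k ≤ x)
    (hxX : x + M + L ≤ Xe) (hL : 1 ≤ L) (hD1 : 1 ≤ D) : cI (P3 A n D) x M ≤ num2 A n := by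
  classical
  unfold cI num2
  refine card_le_card_of_injOn (fun a => n - (cn A a + 1)) ?_ ?_
  · intro a ha
    rw [mem_coe, mem_filter, mem_Ico] at ha
    obtain ⟨⟨h1, h2⟩, h3, h4⟩ := ha
    obtain ⟨g1, g2, g3⟩ := one_facts hS hT hx hxX hL h1 h2 h3
    have h5 := h3.1.2
    have h7 : n - (n - (cn A a + 1)) = cn A a + 1 := by omega
    have h8 : el A (n - (n - (cn A a + 1))) = a := el_cn h3.1.1 h7.symm
    have h9 : n - (cn A a + 1) + el A (n - (n - (cn A a + 1))) = pf A n a := by
      rw [h8]
      omega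
    rw [mem_coe, mem_filter, mem_range]
    beta_reduce
    refine ⟨by omega, by omega, by omega, by rw [h9]; exact g2, ?_⟩
    rw [h9]
    exact h4
  · intro a ha a' ha' h
    rw [mem_coe, mem_filter] at ha ha'
    have h5 := ha.2.1.1.2
    have h5' := ha'.2.1.1.2
    simp only at h
    exact cn_inj ha.2.1.1.1 ha'.2.1.1.1 (by omega)

theorem num1_le (hT : TyA A n k) (hnk : 8 + n * k ≤ n ^ 2) (hM : 8 + n * k ≤ x + M) :
    num1 A n ≤ cI (P2 A n D) x M + D + x := by
  classical
  unfold num1
  have h0 : ∀ l ∈ (range n).filter (fun l => Ok1 A n l), 1 ≤ n - l ∧ n - l ≤ n := by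
    intro l hl
    rw [mem_filter, mem_range] at hl
    omega
  have h1 : ((range n).filter (fun l => Ok1 A n l)).card ≤
      (range D ∪ ((range n).filter (fun l => Ok1 A n l)).filter (fun l => D ≤ l)).card := by
    refine card_le_card fun l hl => ?_
    rw [mem_union, mem_range]
    by_cases h : l < D
    · exact Or.inl h
    · exact Or.inr (mem_filter.2 ⟨hl, by omega⟩)
  have h2 : (((range n).filter (fun l => Ok1 A n l)).filter (fun l => D ≤ l)).card ≤
      (range x ∪ (Ico x (x + M)).filter (P2 A n D)).card := by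
    refine card_le_card_of_injOn (fun l => el A (n - l)) ?_ ?_
    · intro l hl
      rw [mem_coe, mem_filter] at hl
      obtain ⟨hl1, hl2⟩ := hl
      obtain ⟨h3, h4⟩ := h0 l hl1
      obtain ⟨g1, g2, g3⟩ := el_facts hT hnk h3 h4
      rw [mem_filter, mem_range] at hl1
      obtain ⟨h5, h6, h7, h8, q, h9, h10⟩ := hl1
      rw [mem_coe, mem_union, mem_range, mem_filter, mem_Ico]
      beta_reduce
      by_cases h : el A (n - l) < x
      · exact Or.inl h
      · have e1 : pf A n (el A (n - l)) = l + el A (n - l) := by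
          unfold pf
          omega
        refine Or.inr ⟨⟨by omega, by omega⟩, ⟨⟨g1, by omega⟩, by rw [e1]; exact h8⟩, ?_⟩
        unfold q1
        rw [e1]
        have e2 : el A (l + el A (n - l)) + 1 - (l + el A (n - l)) = q := by omega
        rw [e2]
        exact h9
    · intro l hl l' hl' h
      rw [mem_coe, mem_filter] at hl hl'
      obtain ⟨h3, h4⟩ := h0 l hl.1
      obtain ⟨h3', h4'⟩ := h0 l' hl'.1
      obtain ⟨g1, g2, g3⟩ := el_facts hT hnk h3 h4
      obtain ⟨g1', g2', g3'⟩ := el_facts hT hnk h3' h4'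
      simp only at h
      rw [h] at g2
      omega
  have h3 := card_union_le (range D)
    (((range n).filter (fun l => Ok1 A n l)).filter (fun l => D ≤ l))
  have h4 := card_union_le (range x) ((Ico x (x + M)).filter (P2 A n D))
  rw [card_range] at h3 h4
  unfold cI
  have h5 : ((Ico x (x + M)).filter (P2 A n D)).card =
      @card ℕ (@filter ℕ (P2 A n D) (fun a => Classical.propDecidable (P2 A n D a))
        (Ico x (x + M))) := by
    congr
  have h6 : ((range n).filter (fun l => Ok1 A n l)).card =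
      @card ℕ (@filter ℕ (fun l => Ok1 A n l) (fun a => Classical.propDecidable (Ok1 A n a))
        (range n)) := by
    congr
  omega

theorem num2_le (hT : TyA A n k) (hnk : 8 + n * k ≤ n ^ 2) (hM : 8 + n * k ≤ x + M) :
    num2 A n ≤ cI (P3 A n D) x M + D + x := by
  classical
  unfold num2
  have h0 : ∀ l ∈ (range n).filter (fun l => Ok2 A n l), 1 ≤ n - l ∧ n - l ≤ n := by
    intro l hl
    rw [mem_filter, mem_range] at hl
    omega
  have h1 : ((range n).filter (fun l => Ok2 A n l)).card ≤
      (range D ∪ ((range n).filter (fun l => Ok2 A n l)).filter (fun l => D ≤ l)).card := by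
    refine card_le_card fun l hl => ?_
    rw [mem_union, mem_range]
    by_cases h : l < D
    · exact Or.inl h
    · exact Or.inr (mem_filter.2 ⟨hl, by omega⟩)
  have h2 : (((range n).filter (fun l => Ok2 A n l)).filter (fun l => D ≤ l)).card ≤
      (range x ∪ (Ico x (x + M)).filter (P3 A n D)).card := by
    refine card_le_card_of_injOn (fun l => el A (n - l)) ?_ ?_
    · intro l hl
      rw [mem_coe, mem_filter] at hl
      obtain ⟨hl1, hl2⟩ := hl
      obtain ⟨h3, h4⟩ := h0 l hl1
      obtain ⟨g1, g2, g3⟩ := el_facts hT hnk h3 h4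
      rw [mem_filter, mem_range] at hl1
      obtain ⟨h5, h6, h7, h8, h9⟩ := hl1
      rw [mem_coe, mem_union, mem_range, mem_filter, mem_Ico]
      beta_reduce
      by_cases h : el A (n - l) < x
      · exact Or.inl h
      · have e1 : pf A n (el A (n - l)) = l + el A (n - l) := by
          unfold pf
          omega
        refine Or.inr ⟨⟨by omega, by omega⟩, ⟨⟨g1, by omega⟩, by rw [e1]; exact h8⟩, ?_⟩
        unfold q2
        rw [e1]
        exact h9
    · intro l hl l' hl' h
      rw [mem_coe, mem_filter] at hl hl'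
      obtain ⟨h3, h4⟩ := h0 l hl.1
      obtain ⟨h3', h4'⟩ := h0 l' hl'.1
      obtain ⟨g1, g2, g3⟩ := el_facts hT hnk h3 h4
      obtain ⟨g1', g2', g3'⟩ := el_facts hT hnk h3' h4'
      simp only at h
      rw [h] at g2
      omega
  have h3 := card_union_le (range D)
    (((range n).filter (fun l => Ok2 A n l)).filter (fun l => D ≤ l))
  have h4 := card_union_le (range x) ((Ico x (x + M)).filter (P3 A n D))
  rw [card_range] at h3 h4
  unfold cI
  have h5 : ((Ico x (x + M)).filter (P3 A n D)).card =
      @card ℕ (@filter ℕ (P3 A n D) (fun a => Classical.propDecidable (P3 A n D a))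
        (Ico x (x + M))) := by
    congr
  have h6 : ((range n).filter (fun l => Ok2 A n l)).card =
      @card ℕ (@filter ℕ (fun l => Ok2 A n l) (fun a => Classical.propDecidable (Ok2 A n a))
        (range n)) := by
    congr
  omega

end block

end Pool.Agent.CP72
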