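import Pool.Agent.CM69.Key
import Pool.Agent.CR53.Prob

/-!
# CP72/Hoef: Hoeffding's inequality with weights that depend on the random set outside of `V`
-/

set_option autoImplicit false

namespace Pool.Agent.CP72

open MeasureTheory ProbabilityTheory Finset Filter
open Pool.Agent.CM69 (tr mem_tr real_biInter)
open Pool.Agent.CR53 (sig sig_indep meas_E)

variable {Ω : Type*} [mΩ : MeasurableSpace Ω] {μ : Measure Ω} {E : ℕ → Set Ω}

/-- Hoeffding for fixed weights. -/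
theorem hoef0 [IsProbabilityMeasure μ] (hE : ∀ m, MeasurableSet (E m)) (hi : iIndepSet E μ)
    (V : Finset ℕ) (w : ℕ → ℕ) {R : ℕ} (hR : ∀ m, w m ≤ R) (hR0 : 0 < R) (hV : 0 < V.card)
    {t : ℝ} (ht : 0 ≤ t) :
    μ.real {ω | t ≤ |∑ m ∈ V, (w m : ℝ) * ((E m).indicator (fun _ => (1 : ℝ)) ω - μ.real (E m))|} ≤
      2 * Real.exp (-(t ^ 2 / (2 * (R : ℝ) ^ 2 * V.card))) := by
  set Y : ℕ → Ω → ℝ := fun m ω =>
    (w m : ℝ) * ((E m).indicator (fun _ => (1 : ℝ)) ω - μ.real (E m)) with hY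
  have hind0 : iIndepFun (fun m => (E m).indicator fun _ => (1 : ℝ)) μ := hi.iIndepFun_indicator
  have hind : iIndepFun Y μ :=
    hind0.comp (fun m x => (w m : ℝ) * (x - μ.real (E m)))
      (fun m => (measurable_id.sub_const _).const_mul _)
  set c : NNReal := (‖(R : ℝ) - 0‖₊ / 2) ^ 2 with hc
  have hcB : (c : ℝ) = (R : ℝ) ^ 2 / 4 := by
    rw [hc]
    push_cast
    rw [Real.norm_eq_abs, sub_zero, abs_of_nonneg (Nat.cast_nonneg R)]
    ring
  have hmeas : ∀ m, Measurable ((E m).indicator (fun _ => (1 : ℝ))) := fun m =>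
    measurable_const.indicator (hE m)
  have hsub : ∀ m, HasSubgaussianMGF (Y m) c μ := by
    intro m
    have h1 := hasSubgaussianMGF_of_mem_Icc (μ := μ) (a := 0) (b := (R : ℝ))
      (X := fun ω => (w m : ℝ) * (E m).indicator (fun _ => (1 : ℝ)) ω)
      ((hmeas m).const_mul _).aemeasurable
      (Eventually.of_forall fun ω => by
        have hw : (w m : ℝ) ≤ R := by exact_mod_cast hR m
        have hw0 : (0 : ℝ) ≤ w m := Nat.cast_nonneg _
        by_cases h : ω ∈ E m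
        · rw [Set.indicator_of_mem h, mul_one]; exact ⟨hw0, hw⟩
        · rw [Set.indicator_of_notMem h, mul_zero]; exact ⟨le_rfl, Nat.cast_nonneg R⟩)
    have h2 : μ[fun ω => (w m : ℝ) * (E m).indicator (fun _ => (1 : ℝ)) ω] =
        (w m : ℝ) * μ.real (E m) := by
      rw [integral_const_mul, integral_indicator_const _ (hE m), smul_eq_mul, mul_one]
    rw [h2] at h1
    have h3 : Y m = fun ω => (w m : ℝ) * (E m).indicator (fun _ => (1 : ℝ)) ω -
        (w m : ℝ) * μ.real (E m) := by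
      funext ω
      rw [hY]
      ring
    rw [h3]
    exact h1
  have hind' : iIndepFun (fun m => -Y m) μ :=
    hind.comp (fun _ x => -x) (fun _ => measurable_neg)
  have hsub' : ∀ m, HasSubgaussianMGF (-Y m) c μ := fun m => (hsub m).neg
  have h1 := HasSubgaussianMGF.measure_sum_ge_le_of_iIndepFun hind (c := fun _ => c)
    (s := V) (fun i _ => hsub i) ht
  have h2 := HasSubgaussianMGF.measure_sum_ge_le_of_iIndepFun hind' (c := fun _ => c)
    (s := V) (fun i _ => hsub' i) ht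
  have hsum : ((∑ _i ∈ V, c : NNReal) : ℝ) = V.card * ((R : ℝ) ^ 2 / 4) := by
    rw [Finset.sum_const, nsmul_eq_mul, NNReal.coe_mul, hcB, NNReal.coe_natCast]
  have hR' : (0 : ℝ) < R := by exact_mod_cast hR0
  have hV' : (0 : ℝ) < V.card := by exact_mod_cast hV
  have h3 : Real.exp (-t ^ 2 / (2 * ((∑ _i ∈ V, c : NNReal) : ℝ))) ≤
      Real.exp (-(t ^ 2 / (2 * (R : ℝ) ^ 2 * V.card))) := by
    rw [Real.exp_le_exp, hsum, neg_div, neg_le_neg_iff]
    refine div_le_div_of_nonneg_left (by positivity) (by positivity) ?_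
    have : 0 < (V.card : ℝ) * (R : ℝ) ^ 2 := by positivity
    nlinarith
  have hcov : {ω | t ≤ |∑ m ∈ V, Y m ω|} ⊆
      {ω | t ≤ ∑ m ∈ V, Y m ω} ∪ {ω | t ≤ ∑ m ∈ V, (-Y m) ω} := by
    intro ω hω
    rw [Set.mem_ofPred_eq] at hω
    rcases le_total 0 (∑ m ∈ V, Y m ω) with h | h
    · left
      rwa [abs_of_nonneg h] at hω
    · right
      rw [abs_of_nonpos h] at hω
      rw [Set.mem_ofPred_eq]
      refine hω.trans (le_of_eq ?_)
      rw [← Finset.sum_neg_distrib]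
      rfl
  calc μ.real {ω | t ≤ |∑ m ∈ V, Y m ω|}
      ≤ μ.real ({ω | t ≤ ∑ m ∈ V, Y m ω} ∪ {ω | t ≤ ∑ m ∈ V, (-Y m) ω}) :=
        measureReal_mono hcov (measure_ne_top _ _)
    _ ≤ μ.real {ω | t ≤ ∑ m ∈ V, Y m ω} + μ.real {ω | t ≤ ∑ m ∈ V, (-Y m) ω} :=
        measureReal_union_le _ _
    _ ≤ Real.exp (-(t ^ 2 / (2 * (R : ℝ) ^ 2 * V.card))) +
        Real.exp (-(t ^ 2 / (2 * (R : ℝ) ^ 2 * V.card))) := add_le_add (h1.trans h3) (h2.trans h3)
    _ = _ := by ring

theorem meas_H {Ω' : Type*} {m0 : MeasurableSpace Ω'} {E' : ℕ → Set Ω'} (V : Finset ℕ)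
    (hE : ∀ m ∈ V, MeasurableSet (E' m)) (w : ℕ → ℕ) (c : ℕ → ℝ) (t : ℝ) :
    MeasurableSet {ω | t ≤ |∑ m ∈ V, (w m : ℝ) *
      ((E' m).indicator (fun _ => (1 : ℝ)) ω - c m)|} := by
  refine measurableSet_le measurable_const ?_
  refine continuous_abs.measurable.comp ?_
  exact Finset.measurable_fun_sum V fun m hm =>
    ((measurable_const.indicator (hE m hm)).sub_const _).const_mul _

theorem meas_T {Ω' : Type*} {m0 : MeasurableSpace Ω'} {E' : ℕ → Set Ω'} (B : Finset ℕ)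
    (hE : ∀ m ∈ B, MeasurableSet (E' m)) (f : ℕ → Set Ω')
    (hf : ∀ m ∈ B, f m = E' m ∨ f m = (E' m)ᶜ) : MeasurableSet (⋂ m ∈ B, f m) := by
  refine Finset.measurableSet_biInter _ fun m hm => ?_
  rcases hf m hm with h | h
  · rw [h]
    exact hE m hm
  · rw [h]
    exact (hE m hm).compl

theorem hoef [IsProbabilityMeasure μ] (hE : ∀ m, MeasurableSet (E m)) (hi : iIndepSet E μ)
    (X : ℕ) (V : Finset ℕ) (w : Finset ℕ → ℕ → ℕ) {R : ℕ} (hR : ∀ G m, w G m ≤ R) (hR0 : 0 < R)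
    (hV : 0 < V.card) {t : ℝ} (ht : 0 ≤ t) :
    μ.real {ω | t ≤ |∑ m ∈ V, (w (tr E X V ω) m : ℝ) *
      ((E m).indicator (fun _ => (1 : ℝ)) ω - μ.real (E m))|} ≤
      2 * Real.exp (-(t ^ 2 / (2 * (R : ℝ) ^ 2 * V.card))) := by
  classical
  obtain ⟨B, hB⟩ : ∃ B, B = range X \ V := ⟨_, rfl⟩
  let f : Finset ℕ → ℕ → Set Ω := fun G m => if m ∈ G then E m else (E m)ᶜ
  have hf : ∀ G m, f G m = E m ∨ f G m = (E m)ᶜ := by
    intro G m
    simp only [f]
    split_ifs
    · exact Or.inl rfl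
    · exact Or.inr rfl
  have hC : ∀ G ∈ B.powerset, {ω | tr E X V ω = G} = ⋂ m ∈ B, f G m := by
    intro G hG
    rw [mem_powerset] at hG
    ext ω
    rw [Set.mem_ofPred_eq, Set.mem_iInter₂]
    constructor
    · intro h m hm
      simp only [f]
      rw [hB, Finset.mem_sdiff, mem_range] at hm
      split_ifs with h2
      · rw [← h, mem_tr] at h2
        exact h2.2.2
      · rw [Set.mem_compl_iff]
        intro h3
        exact h2 (by rw [← h, mem_tr]; exact ⟨hm.1, hm.2, h3⟩)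
    · intro h
      ext m
      rw [mem_tr]
      constructor
      · rintro ⟨h2, h3, h4⟩
        have h5 := h m (by rw [hB, Finset.mem_sdiff, mem_range]; exact ⟨h2, h3⟩)
        simp only [f] at h5
        by_contra h6
        rw [if_neg h6] at h5
        exact h5 h4
      · intro h2
        have h3 := hG h2
        have h5 := h m h3
        rw [hB, Finset.mem_sdiff, mem_range] at h3
        simp only [f] at h5
        rw [if_pos h2] at h5
        exact ⟨h3.1, h3.2, h5⟩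
  have hCm : ∀ G ∈ B.powerset, MeasurableSet {ω | tr E X V ω = G} := by
    intro G hG
    rw [hC G hG]
    exact meas_T B (fun m _ => hE m) (f G) fun m _ => hf G m
  have hcov : {ω | t ≤ |∑ m ∈ V, (w (tr E X V ω) m : ℝ) *
      ((E m).indicator (fun _ => (1 : ℝ)) ω - μ.real (E m))|} ⊆
      ⋃ G ∈ B.powerset, ({ω | tr E X V ω = G} ∩ {ω | t ≤ |∑ m ∈ V, (w G m : ℝ) *
        ((E m).indicator (fun _ => (1 : ℝ)) ω - μ.real (E m))|}) := by
    intro ω hω
    rw [Set.mem_iUnion₂]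
    refine ⟨tr E X V ω, ?_, rfl, hω⟩
    rw [mem_powerset, hB]
    unfold tr
    exact filter_subset _ _
  have hone : ∀ G ∈ B.powerset, μ.real ({ω | tr E X V ω = G} ∩ {ω | t ≤ |∑ m ∈ V, (w G m : ℝ) *
        ((E m).indicator (fun _ => (1 : ℝ)) ω - μ.real (E m))|}) ≤
      μ.real {ω | tr E X V ω = G} * (2 * Real.exp (-(t ^ 2 / (2 * (R : ℝ) ^ 2 * V.card)))) := by
    intro G hG
    have hind := sig_indep hE hi (S := ((B : Finset ℕ) : Set ℕ)) (T := ((V : Finset ℕ) : Set ℕ)) (by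
      rw [Set.disjoint_left]
      intro m hm hm'
      rw [mem_coe, hB, Finset.mem_sdiff] at hm
      exact hm.2 hm')
    have h4 := (Indep_iff _ _ _).1 hind {ω | tr E X V ω = G}
      {ω | t ≤ |∑ m ∈ V, (w G m : ℝ) *
        ((E m).indicator (fun _ => (1 : ℝ)) ω - μ.real (E m))|}
      (by
        rw [hC G hG]
        exact meas_T (m0 := sig E ((B : Finset ℕ) : Set ℕ)) B (fun m hm => meas_E hm) (f G)
          fun m _ => hf G m)
      (meas_H (m0 := sig E ((V : Finset ℕ) : Set ℕ)) V (fun m hm => meas_E hm) (w G)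
        (fun m => μ.real (E m)) t)
    rw [Measure.real, h4, ENNReal.toReal_mul]
    exact mul_le_mul_of_nonneg_left (hoef0 hE hi V (w G) (hR G) hR0 hV ht) measureReal_nonneg
  have hsum : ∑ G ∈ B.powerset, μ.real {ω | tr E X V ω = G} ≤ 1 := by
    have h2 : Set.PairwiseDisjoint (↑(B.powerset)) (fun G => {ω | tr E X V ω = G}) := by
      intro G _ G' _ hne
      rw [Function.onFun, Set.disjoint_left]
      intro ω h3 h4
      exact hne (h3.symm.trans h4)
    rw [← measureReal_biUnion_finset h2 hCm]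
    exact measureReal_le_one
  have hpos : 0 ≤ 2 * Real.exp (-(t ^ 2 / (2 * (R : ℝ) ^ 2 * V.card))) := by positivity
  calc _ ≤ μ.real (⋃ G ∈ B.powerset, ({ω | tr E X V ω = G} ∩ {ω | t ≤ |∑ m ∈ V, (w G m : ℝ) *
        ((E m).indicator (fun _ => (1 : ℝ)) ω - μ.real (E m))|})) :=
        measureReal_mono hcov (measure_ne_top _ _)
    _ ≤ ∑ G ∈ B.powerset, μ.real ({ω | tr E X V ω = G} ∩ {ω | t ≤ |∑ m ∈ V, (w G m : ℝ) *
        ((E m).indicator (fun _ => (1 : ℝ)) ω - μ.real (E m))|}) :=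
        measureReal_biUnion_finset_le _ _
    _ ≤ ∑ G ∈ B.powerset, μ.real {ω | tr E X V ω = G} *
        (2 * Real.exp (-(t ^ 2 / (2 * (R : ℝ) ^ 2 * V.card)))) := sum_le_sum hone
    _ = (∑ G ∈ B.powerset, μ.real {ω | tr E X V ω = G}) *
        (2 * Real.exp (-(t ^ 2 / (2 * (R : ℝ) ^ 2 * V.card)))) := by rw [sum_mul]
    _ ≤ 1 * (2 * Real.exp (-(t ^ 2 / (2 * (R : ℝ) ^ 2 * V.card)))) :=
        mul_le_mul_of_nonneg_right hsum hpos
    _ = _ := one_mul _

end Pool.Agent.CP72
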