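import Pool.Agent.CP72.DetB
import Pool.Agent.CP72.Hoef
import Pool.Agent.CP70.Bnd2

/-!
# CP72/Ev: the bad events, their probability, and what holds outside of them
-/

set_option autoImplicit false

namespace Pool.Agent.CP72

open MeasureTheory ProbabilityTheory Finset Filter Topology Pool.Agent.CP25 Pool.Agent.CP69
open Pool.Agent.CM69 (tr mem_tr real_biInter)
open Pool.Agent.CP70 (bu)

variable {Ω : Type*} [mΩ : MeasurableSpace Ω] {μ : Measure Ω} {E : ℕ → Set Ω}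

def HP (E : ℕ → Set Ω) (n k L D : ℕ) (t : ℝ) (x : ℕ) : Set Ω :=
  {ω | t ≤ |∑ m ∈ Icc (x + D) (x + n + L),
    (wP n x L D (k ^ 2) (tr E (n ^ 2) (Icc (x + D) (x + n + L)) ω) m : ℝ) *
      ((E m).indicator (fun _ => (1 : ℝ)) ω - 1 / Real.log m)|}

def HQ1 (E : ℕ → Set Ω) (n k L D : ℕ) (t : ℝ) (x v c : ℕ) : Set Ω :=
  {ω | t ≤ |∑ m ∈ Icc v (v + (L * k + k + L)),
    (wQ1 n x L D (k ^ 2) c (tr E (n ^ 2) (Icc v (v + (L * k + k + L))) ω) m : ℝ) *
      ((E m).indicator (fun _ => (1 : ℝ)) ω - 1 / Real.log m)|}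

def HQ2 (E : ℕ → Set Ω) (n k L D : ℕ) (t : ℝ) (x v : ℕ) : Set Ω :=
  {ω | t ≤ |∑ m ∈ Icc v (v + (L * k + k + L)),
    (wQ2 n x L D (k ^ 2) (tr E (n ^ 2) (Icc v (v + (L * k + k + L))) ω) m : ℝ) *
      ((E m).indicator (fun _ => (1 : ℝ)) ω - 1 / Real.log m)|}

open Classical in
/-- the `a` with `p`, `q` in the set (Q1) -/
noncomputable def aQ1 (A : Set ℕ) (n x L D : ℕ) : Finset ℕ :=
  (aP A n x L D).filter (fun a => q1 A n a ∈ A)

open Classical in
/-- the `a` with `p`, `q` in the set (Q2) -/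
noncomputable def aQ2 (A : Set ℕ) (n x L D : ℕ) : Finset ℕ :=
  (aP A n x L D).filter (fun a => q2 A n a ∈ A)

theorem hf_le [IsProbabilityMeasure μ] (hE : ∀ m, MeasurableSet (E m)) (hi : iIndepSet E μ)
    (hp : ∀ m, 3 ≤ m → μ.real (E m) = 1 / Real.log m) (X : ℕ) (V : Finset ℕ)
    (hV : ∀ m ∈ V, 3 ≤ m) {n k : ℕ} (hk : 1 ≤ k) (hV0 : 0 < V.card) (hVn : V.card ≤ 3 * n)
    (w : Finset ℕ → ℕ → ℕ) (hw : ∀ G m, w G m ≤ k ^ 2) {t : ℝ} (ht : 0 ≤ t) :
    μ.real {ω | t ≤ |∑ m ∈ V, (w (tr E X V ω) m : ℝ) *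
      ((E m).indicator (fun _ => (1 : ℝ)) ω - 1 / Real.log m)|} ≤
      2 * Real.exp (-(t ^ 2 / (2 * (k : ℝ) ^ 4 * (3 * n)))) := by
  have h1 : {ω | t ≤ |∑ m ∈ V, (w (tr E X V ω) m : ℝ) *
      ((E m).indicator (fun _ => (1 : ℝ)) ω - 1 / Real.log m)|} =
      {ω | t ≤ |∑ m ∈ V, (w (tr E X V ω) m : ℝ) *
      ((E m).indicator (fun _ => (1 : ℝ)) ω - μ.real (E m))|} := by
    ext ω
    rw [Set.mem_ofPred_eq, Set.mem_ofPred_eq]
    have h2 : ∑ m ∈ V, (w (tr E X V ω) m : ℝ) *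
        ((E m).indicator (fun _ => (1 : ℝ)) ω - 1 / Real.log m) =
        ∑ m ∈ V, (w (tr E X V ω) m : ℝ) *
        ((E m).indicator (fun _ => (1 : ℝ)) ω - μ.real (E m)) :=
      sum_congr rfl fun m hm => by rw [hp m (hV m hm)]
    rw [h2]
  rw [h1]
  have hk2 : 0 < k ^ 2 := by positivity
  refine (hoef hE hi X V w hw hk2 hV0 ht).trans ?_
  have hk' : (1 : ℝ) ≤ k := by exact_mod_cast hk
  have hV1 : (0 : ℝ) < V.card := by exact_mod_cast hV0
  have hV2 : (V.card : ℝ) ≤ 3 * n := by exact_mod_cast hVn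
  refine mul_le_mul_of_nonneg_left ?_ (by norm_num)
  rw [Real.exp_le_exp, neg_le_neg_iff]
  push_cast
  have e : ((k : ℝ) ^ 2) ^ 2 = (k : ℝ) ^ 4 := by ring
  rw [e]
  refine div_le_div_of_nonneg_left (by positivity) (by positivity) ?_
  exact mul_le_mul_of_nonneg_left hV2 (by positivity)

omit mΩ in
theorem ind_card (A : Set ℕ) (ω : Ω) (hA : A = RS E ω) (S : Finset ℕ) (f : ℕ → ℕ)
    [DecidablePred fun a => f a ∈ A] (g : ℕ → ℝ) :
    ∑ a ∈ S, ((E (f a)).indicator (fun _ => (1 : ℝ)) ω - g (f a)) =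
      ((S.filter (fun a => f a ∈ A)).card : ℝ) - ∑ a ∈ S, g (f a) := by
  rw [sum_sub_distrib, card_filter]
  push_cast
  congr 1
  refine sum_congr rfl fun a _ => ?_
  by_cases h : ω ∈ E (f a)
  · rw [Set.indicator_of_mem h, if_pos (by rw [hA]; exact h)]
  · rw [Set.indicator_of_notMem h, if_neg (by rw [hA]; exact h)]

omit mΩ in
/-- the three inequalities for a block -/
theorem blk72 {n k L D Xe x : ℕ} {t : ℝ} {ω : Ω} (hS : SzA n k L D Xe) (hT : TyA (RS E ω) n k)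
    (hx : 8 + k ≤ x) (hxX : x + L ≤ Xe) (ht : 0 < t) (h1 : ω ∉ HP E n k L D t x)
    (h2 : ∀ v, x + n + L < v → v + (L * k + k + L) ≤ n ^ 2 → ∀ c < n + 1,
      ω ∉ HQ1 E n k L D t x v c)
    (h3 : ∀ v, x + n + L < v → v + (L * k + k + L) ≤ n ^ 2 → ω ∉ HQ2 E n k L D t x v) :
    |((aP (RS E ω) n x L D).card : ℝ) -
      ∑ a ∈ aS (RS E ω) n x L D, 1 / Real.log (pf (RS E ω) n a)| < t ∧
    |((aQ1 (RS E ω) n x L D).card : ℝ) -
      ∑ a ∈ aP (RS E ω) n x L D, 1 / Real.log (q1 (RS E ω) n a)| < t ∧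
    |((aQ2 (RS E ω) n x L D).card : ℝ) -
      ∑ a ∈ aP (RS E ω) n x L D, 1 / Real.log (q2 (RS E ω) n a)| < t := by
  classical
  have s6 := hS.hw
  have s7 := hS.hD
  have s8 := hS.k8
  refine ⟨?_, ?_, ?_⟩
  · unfold HP at h1
    rw [Set.mem_ofPred_eq, not_le, tr_eq,
      sumP hS hT hx hxX (fun m => (E m).indicator (fun _ => (1 : ℝ)) ω - 1 / Real.log m),
      ind_card (RS E ω) ω rfl (aS (RS E ω) n x L D) (pf (RS E ω) n) (fun m => 1 / Real.log m)] at h1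
    have e : (aP (RS E ω) n x L D).card =
        ((aS (RS E ω) n x L D).filter (fun a => pf (RS E ω) n a ∈ RS E ω)).card := by
      unfold aP
      congr
    rw [e]
    exact h1
  · rcases (aP (RS E ω) n x L D).eq_empty_or_nonempty with h0 | h0
    · unfold aQ1
      rw [h0]
      simpa using ht
    · obtain ⟨v, hv1, hv2, hv3⟩ := sumQ1 hS hT hx hxX h0
      have hc : cV (RS E ω) (Icc v (v + (L * k + k + L))) < n + 1 := by
        unfold cV
        calc _ ≤ (Icc v (v + (L * k + k + L))).card := card_le_card (filter_subset _ _)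
          _ = L * k + k + L + 1 := by rw [Nat.card_Icc]; omega
          _ < n + 1 := by omega
      have g2 := h2 v hv1 hv2 _ hc
      unfold HQ1 at g2
      rw [Set.mem_ofPred_eq, not_le, tr_eq,
        hv3 (fun m => (E m).indicator (fun _ => (1 : ℝ)) ω - 1 / Real.log m),
        ind_card (RS E ω) ω rfl (aP (RS E ω) n x L D) (q1 (RS E ω) n)
          (fun m => 1 / Real.log m)] at g2
      have e : (aQ1 (RS E ω) n x L D).card =
          ((aP (RS E ω) n x L D).filter (fun a => q1 (RS E ω) n a ∈ RS E ω)).card := by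
        unfold aQ1
        congr
      rw [e]
      exact g2
  · rcases (aP (RS E ω) n x L D).eq_empty_or_nonempty with h0 | h0
    · unfold aQ2
      rw [h0]
      simpa using ht
    · obtain ⟨v, hv1, hv2, hv3⟩ := sumQ2 hS hT hx hxX h0
      have g2 := h3 v hv1 hv2
      unfold HQ2 at g2
      rw [Set.mem_ofPred_eq, not_le, tr_eq,
        hv3 (fun m => (E m).indicator (fun _ => (1 : ℝ)) ω - 1 / Real.log m),
        ind_card (RS E ω) ω rfl (aP (RS E ω) n x L D) (q2 (RS E ω) n)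
          (fun m => 1 / Real.log m)] at g2
      have e : (aQ2 (RS E ω) n x L D).card =
          ((aP (RS E ω) n x L D).filter (fun a => q2 (RS E ω) n a ∈ RS E ω)).card := by
        unfold aQ2
        congr
      rw [e]
      exact g2

/-- The bad event for `n`. -/
def Bad72 (E : ℕ → Set Ω) (n k L D Xe : ℕ) (t : ℝ) : Set Ω :=
  (⋃ y ∈ (range (n ^ 2)).filter (fun y => 8 ≤ y), W1 E k y) ∪
  ((⋃ y ∈ (range (n ^ 2)).filter (fun y => 8 ≤ y), W2 E k y) ∪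
  ((⋃ y ∈ (range (n ^ 2 + 1)).filter (fun y => n ≤ y), UU E y) ∪
  ((⋃ x ∈ (range (n ^ 2)).filter (fun x => 8 + k ≤ x ∧ x + L ≤ Xe), HP E n k L D t x) ∪
  ((⋃ x ∈ (range (n ^ 2)).filter (fun x => 8 + k ≤ x ∧ x + L ≤ Xe),
    ⋃ v ∈ (range (n ^ 2 + 1)).filter (fun v => x + n + L < v ∧
    v + (L * k + k + L) ≤ n ^ 2), ⋃ c ∈ range (n + 1), HQ1 E n k L D t x v c) ∪
  (⋃ x ∈ (range (n ^ 2)).filter (fun x => 8 + k ≤ x ∧ x + L ≤ Xe),
    ⋃ v ∈ (range (n ^ 2 + 1)).filter (fun v => x + n + L < v ∧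
    v + (L * k + k + L) ≤ n ^ 2), HQ2 E n k L D t x v)))))

omit mΩ in
theorem of_notMem72 {n k L D Xe : ℕ} {t : ℝ} {ω : Ω} (hS : SzA n k L D Xe) (ht : 0 < t)
    (hb : ω ∉ Bad72 E n k L D Xe t) :
    TyA (RS E ω) n k ∧ ∀ x, 8 + k ≤ x → x + L ≤ Xe →
    |((aP (RS E ω) n x L D).card : ℝ) -
      ∑ a ∈ aS (RS E ω) n x L D, 1 / Real.log (pf (RS E ω) n a)| < t ∧
    |((aQ1 (RS E ω) n x L D).card : ℝ) -
      ∑ a ∈ aP (RS E ω) n x L D, 1 / Real.log (q1 (RS E ω) n a)| < t ∧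
    |((aQ2 (RS E ω) n x L D).card : ℝ) -
      ∑ a ∈ aP (RS E ω) n x L D, 1 / Real.log (q2 (RS E ω) n a)| < t := by
  have hb' := hb
  unfold Bad72 at hb'
  simp only [Set.mem_union, Set.mem_iUnion, mem_filter, mem_range, not_or, not_exists,
    and_imp] at hb'
  obtain ⟨h1, h2, h3, h4, h5, h6⟩ := hb'
  have hk8 := hS.k8
  have hw := hS.hw
  have hD := hS.hD
  have hT : TyA (RS E ω) n k := by
    refine ⟨?_, ?_⟩
    · intro y hy hyk
      have g1 := h1 y (by omega) hy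
      have g2 := h2 y (by omega) hy
      simp only [W1, Set.mem_ofPred_eq, not_forall, not_not, mem_Ico] at g1
      simp only [W2, Set.mem_ofPred_eq, not_forall, mem_Ico] at g2
      obtain ⟨m, ⟨ha, hb⟩, hc⟩ := g1
      obtain ⟨m', ⟨ha', hb'⟩, hc'⟩ := g2
      exact ⟨⟨m, hc, ha, hb⟩, ⟨m', hc', ha', hb'⟩⟩
    · intro y hy hyn
      have g1 := h3 y (by omega) hy
      simp only [UU, Set.mem_ofPred_eq, not_lt] at g1
      exact g1
  refine ⟨hT, fun x hx hxX => ?_⟩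
  have hX := hS.hX
  have hXe : Xe * 1 + 2 * n * 1 ≤ (Xe + 2 * n) * k := by
    have : (Xe + 2 * n) * 1 ≤ (Xe + 2 * n) * k := Nat.mul_le_mul_left _ (by omega)
    omega
  exact blk72 hS hT hx hxX ht (h4 x (by omega) hx hxX)
    (fun v hv1 hv2 c hc => h5 x (by omega) hx hxX v (by omega) hv1 hv2 c hc)
    (fun v hv1 hv2 => h6 x (by omega) hx hxX v (by omega) hv1 hv2)

theorem bad72_le [IsProbabilityMeasure μ] (hE : ∀ m, MeasurableSet (E m)) (hi : iIndepSet E μ)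
    (hp : ∀ m, 3 ≤ m → μ.real (E m) = 1 / Real.log m) {n k L D Xe : ℕ} {t : ℝ}
    (hS : SzA n k L D Xe) (ht : 0 ≤ t)
    (hN3 : ∀ y, n ≤ y → ∑ m ∈ range (4 * y), μ.real (E m) ≤ y / 8) {r : ℝ}
    (r1 : (1 - 1 / (3 * Real.log n)) ^ k ≤ r) (r2 : Real.exp (-(n / 4)) ≤ r)
    (r3 : 2 * Real.exp (-(t ^ 2 / (2 * (k : ℝ) ^ 4 * (3 * n)))) ≤ r) :
    μ.real (Bad72 E n k L D Xe t) ≤ 20 * (n : ℝ) ^ 5 * r := by
  have hk8 := hS.k8
  have hw := hS.hw
  have hD := hS.hD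
  have hn3 : 128 ≤ n := by omega
  have hr0 : 0 ≤ r := (Real.exp_pos _).le.trans r2
  have hn23 : 4 * n ^ 2 ≤ n ^ 3 := by
    have e : n ^ 3 = n * n ^ 2 := by ring
    rw [e]
    exact Nat.mul_le_mul_right _ (by omega)
  have hnn2 : 4 * n ≤ n ^ 2 := by
    have e : n ^ 2 = n * n := by ring
    rw [e]
    exact Nat.mul_le_mul_right _ (by omega)
  have N0 : (128 : ℝ) ≤ n := by exact_mod_cast hn3
  have N1 : (1 : ℝ) ≤ n := by linarith
  have c2 : ((n ^ 2 : ℕ) : ℝ) ≤ (n : ℝ) ^ 5 := by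
    push_cast
    exact pow_le_pow_right₀ N1 (by norm_num)
  have c22 : ((n ^ 2 : ℕ) : ℝ) ≤ (n : ℝ) ^ 2 := by
    push_cast
    exact le_rfl
  have c21 : ((n ^ 2 + 1 : ℕ) : ℝ) ≤ (n : ℝ) ^ 5 := by
    push_cast
    have h1 : (n : ℝ) ^ 5 = n ^ 2 * n ^ 3 := by ring
    have h2 : (1 : ℝ) ≤ (n : ℝ) ^ 2 := one_le_pow₀ N1
    have h3 : (2 : ℝ) ≤ (n : ℝ) ^ 3 := by
      calc (2 : ℝ) ≤ n := by linarith
        _ = (n : ℝ) ^ 1 := by ring
        _ ≤ (n : ℝ) ^ 3 := pow_le_pow_right₀ N1 (by norm_num)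
    rw [h1]
    nlinarith
  have cf : ∀ (m : ℕ) (P : ℕ → Prop) [DecidablePred P],
      (((range m).filter P).card : ℝ) ≤ (m : ℝ) := by
    intro m P _
    have h1 : ((range m).filter P).card ≤ m := by
      calc _ ≤ (range m).card := card_le_card (filter_subset _ _)
        _ = m := card_range m
    exact_mod_cast h1
  have b1 : μ.real (⋃ y ∈ (range (n ^ 2)).filter (fun y => 8 ≤ y), W1 E k y) ≤ (n : ℝ) ^ 5 * r := by
    refine bu _ _ (fun y hy => ?_) ((cf _ _).trans c2) hr0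
    rw [mem_filter, mem_range] at hy
    exact (w1_le hE hi hp (by omega) (by omega) (by omega)).trans r1
  have b2 : μ.real (⋃ y ∈ (range (n ^ 2)).filter (fun y => 8 ≤ y), W2 E k y) ≤ (n : ℝ) ^ 5 * r := by
    refine bu _ _ (fun y hy => ?_) ((cf _ _).trans c2) hr0
    rw [mem_filter, mem_range] at hy
    exact (w2_le hi hp (by omega) (by omega)).trans r1
  have b3 : μ.real (⋃ y ∈ (range (n ^ 2 + 1)).filter (fun y => n ≤ y), UU E y) ≤
      (n : ℝ) ^ 5 * r := by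
    refine bu _ _ (fun y hy => ?_) ((cf _ _).trans c21) hr0
    rw [mem_filter, mem_range] at hy
    refine (uu_le hE hi (by omega) (hN3 y hy.2)).trans (le_trans ?_ r2)
    rw [Real.exp_le_exp]
    have : (n : ℝ) ≤ y := by exact_mod_cast hy.2
    linarith
  have b4 : μ.real (⋃ x ∈ (range (n ^ 2)).filter (fun x => 8 + k ≤ x ∧ x + L ≤ Xe),
      HP E n k L D t x) ≤ (n : ℝ) ^ 5 * r := by
    refine bu _ _ (fun x hx => ?_) ((cf _ _).trans c2) hr0
    rw [mem_filter, mem_range] at hx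
    refine (hf_le hE hi hp (n ^ 2) (Icc (x + D) (x + n + L)) (fun m hm => ?_) (n := n) (k := k)
      (by omega) ?_ ?_ (wP n x L D (k ^ 2)) (fun G m => Nat.min_le_left _ _) ht).trans r3
    · rw [mem_Icc] at hm
      omega
    · rw [Nat.card_Icc]
      omega
    · rw [Nat.card_Icc]
      omega
  have q1 : (n : ℝ) + 1 ≤ 2 * n := by linarith
  have q2 : (n : ℝ) ^ 2 + 1 ≤ 2 * n ^ 2 := by
    have : (1 : ℝ) ≤ (n : ℝ) ^ 2 := one_le_pow₀ N1
    linarith
  have b5 : μ.real (⋃ x ∈ (range (n ^ 2)).filter (fun x => 8 + k ≤ x ∧ x + L ≤ Xe),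
      ⋃ v ∈ (range (n ^ 2 + 1)).filter (fun v => x + n + L < v ∧
      v + (L * k + k + L) ≤ n ^ 2), ⋃ c ∈ range (n + 1), HQ1 E n k L D t x v c) ≤
      (n : ℝ) ^ 2 * (2 * n ^ 2 * (2 * n * r)) := by
    refine bu _ _ (fun x hx => ?_) ((cf _ _).trans c22) (by positivity)
    refine bu _ _ (fun v hv => ?_) ((cf _ _).trans (by push_cast; exact q2)) (by positivity)
    refine bu _ _ (fun c _ => ?_) (by rw [card_range]; push_cast; exact q1) hr0
    rw [mem_filter, mem_range] at hx hv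
    refine (hf_le hE hi hp (n ^ 2) (Icc v (v + (L * k + k + L))) (fun m hm => ?_) (n := n) (k := k)
      (by omega) ?_ ?_ (wQ1 n x L D (k ^ 2) c) (fun G m => Nat.min_le_left _ _) ht).trans r3
    · rw [mem_Icc] at hm
      omega
    · rw [Nat.card_Icc]
      omega
    · rw [Nat.card_Icc]
      omega
  have b6 : μ.real (⋃ x ∈ (range (n ^ 2)).filter (fun x => 8 + k ≤ x ∧ x + L ≤ Xe),
      ⋃ v ∈ (range (n ^ 2 + 1)).filter (fun v => x + n + L < v ∧
      v + (L * k + k + L) ≤ n ^ 2), HQ2 E n k L D t x v) ≤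
      (n : ℝ) ^ 2 * (2 * n ^ 2 * r) := by
    refine bu _ _ (fun x hx => ?_) ((cf _ _).trans c22) (by positivity)
    refine bu _ _ (fun v hv => ?_) ((cf _ _).trans (by push_cast; exact q2)) hr0
    rw [mem_filter, mem_range] at hx hv
    refine (hf_le hE hi hp (n ^ 2) (Icc v (v + (L * k + k + L))) (fun m hm => ?_) (n := n) (k := k)
      (by omega) ?_ ?_ (wQ2 n x L D (k ^ 2)) (fun G m => Nat.min_le_left _ _) ht).trans r3
    · rw [mem_Icc] at hm
      omega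
    · rw [Nat.card_Icc]
      omega
    · rw [Nat.card_Icc]
      omega
  have htot : μ.real (Bad72 E n k L D Xe t) ≤ (n : ℝ) ^ 5 * r + ((n : ℝ) ^ 5 * r +
      ((n : ℝ) ^ 5 * r + ((n : ℝ) ^ 5 * r + ((n : ℝ) ^ 2 * (2 * n ^ 2 * (2 * n * r)) +
      (n : ℝ) ^ 2 * (2 * n ^ 2 * r))))) := by
    unfold Bad72
    refine (measureReal_union_le _ _).trans (add_le_add b1 ?_)
    refine (measureReal_union_le _ _).trans (add_le_add b2 ?_)
    refine (measureReal_union_le _ _).trans (add_le_add b3 ?_)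
    refine (measureReal_union_le _ _).trans (add_le_add b4 ?_)
    exact (measureReal_union_le _ _).trans (add_le_add b5 b6)
  have z1 : (n : ℝ) ^ 4 * r ≤ (n : ℝ) ^ 5 * r :=
    mul_le_mul_of_nonneg_right (pow_le_pow_right₀ N1 (by norm_num)) hr0
  have z2 : (n : ℝ) ^ 2 * (2 * n ^ 2 * (2 * n * r)) = 4 * ((n : ℝ) ^ 5 * r) := by ring
  have z3 : (n : ℝ) ^ 2 * (2 * n ^ 2 * r) = 2 * ((n : ℝ) ^ 4 * r) := by ring
  have z4 : 0 ≤ (n : ℝ) ^ 5 * r := by positivity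
  rw [z2, z3] at htot
  nlinarith

end Pool.Agent.CP72
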