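import Pool.Agent.CP72.Ev
import Pool.Agent.CP72.DetC

/-!
# CP72/Ev2: outside of the bad event, the inequalities for the sums over the blocks
-/

set_option autoImplicit false

namespace Pool.Agent.CP72

open MeasureTheory ProbabilityTheory Finset Filter Topology Pool.Agent.CP25 Pool.Agent.CP69
open Pool.Agent.CM69 (tr mem_tr real_biInter)

variable {Ω : Type*} {E : ℕ → Set Ω}

theorem ind_eq (ω : Ω) (m : ℕ) : (E m).indicator (fun _ => (1 : ℝ)) ω = ind (RS E ω) m := by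
  classical
  unfold ind
  by_cases h : ω ∈ E m
  · rw [Set.indicator_of_mem h, if_pos (by exact h)]
  · rw [Set.indicator_of_notMem h, if_neg (by exact h)]

theorem ineq72 {n k L D Xe J Y x0 : ℕ} {t c1 c2 : ℝ} {ω : Ω} (hS : SzA n k L D Xe) (ht : 0 < t)
    (hb : ω ∉ Bad72 E n k L D Xe t) (hx : 8 + k ≤ x0) (hxX : x0 + J * L ≤ Xe)
    (hY : 9 + (Xe + 2 * n) * (k + 1) ≤ Y)
    (hc : ∀ m : ℕ, n ≤ m → m ≤ Y → c1 ≤ 1 / Real.log m ∧ 1 / Real.log m ≤ c2) :
    TyA (RS E ω) n k ∧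
    (c1 * cI (P0 (RS E ω) n D) x0 (J * L) - J * t ≤ cI (P1 (RS E ω) n D) x0 (J * L) ∧
      (cI (P1 (RS E ω) n D) x0 (J * L) : ℝ) ≤ c2 * cI (P0 (RS E ω) n D) x0 (J * L) + J * t) ∧
    (c1 * cI (P1 (RS E ω) n D) x0 (J * L) - J * t ≤ cI (P2 (RS E ω) n D) x0 (J * L) ∧
      (cI (P2 (RS E ω) n D) x0 (J * L) : ℝ) ≤ c2 * cI (P1 (RS E ω) n D) x0 (J * L) + J * t) ∧
    (c1 * cI (P1 (RS E ω) n D) x0 (J * L) - J * t ≤ cI (P3 (RS E ω) n D) x0 (J * L) ∧
      (cI (P3 (RS E ω) n D) x0 (J * L) : ℝ) ≤ c2 * cI (P1 (RS E ω) n D) x0 (J * L) + J * t) := by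
  have hT := (of_notMem72 hS ht hb).1
  have hb' := hb
  unfold Bad72 at hb'
  simp only [Set.mem_union, Set.mem_iUnion, mem_filter, mem_range, not_or, not_exists,
    and_imp] at hb'
  obtain ⟨-, -, -, h4, h5, h6⟩ := hb'
  have hk8 := hS.k8
  have hw := hS.hw
  have hD := hS.hD
  have hX := hS.hX
  have hXe : Xe * 1 + 2 * n * 1 ≤ (Xe + 2 * n) * k := by
    have : (Xe + 2 * n) * 1 ≤ (Xe + 2 * n) * k := Nat.mul_le_mul_left _ (by omega)
    omega
  have hblk : ∀ i < J,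
      (c1 * cI (P0 (RS E ω) n D) (x0 + i * L) L - t ≤ cI (P1 (RS E ω) n D) (x0 + i * L) L ∧
        (cI (P1 (RS E ω) n D) (x0 + i * L) L : ℝ) ≤
          c2 * cI (P0 (RS E ω) n D) (x0 + i * L) L + t) ∧
      (c1 * cI (P1 (RS E ω) n D) (x0 + i * L) L - t ≤ cI (P2 (RS E ω) n D) (x0 + i * L) L ∧
        (cI (P2 (RS E ω) n D) (x0 + i * L) L : ℝ) ≤
          c2 * cI (P1 (RS E ω) n D) (x0 + i * L) L + t) ∧
      (c1 * cI (P1 (RS E ω) n D) (x0 + i * L) L - t ≤ cI (P3 (RS E ω) n D) (x0 + i * L) L ∧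
        (cI (P3 (RS E ω) n D) (x0 + i * L) L : ℝ) ≤
          c2 * cI (P1 (RS E ω) n D) (x0 + i * L) L + t) := by
    intro i hi
    have h10 : (i + 1) * L ≤ J * L := Nat.mul_le_mul_right _ hi
    have e : (i + 1) * L = i * L + L := by ring
    obtain ⟨x, hxe⟩ : ∃ x, x = x0 + i * L := ⟨_, rfl⟩
    rw [← hxe]
    have hx1 : 8 + k ≤ x := by omega
    have hx2 : x + L ≤ Xe := by omega
    refine blkC hS hT hx1 hx2 (pr := fun m => 1 / Real.log m) (Y := Y) ht.le hY hc ?_ ?_ ?_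
    · have g := h4 x (by omega) hx1 hx2
      unfold HP at g
      rw [Set.mem_ofPred_eq, not_le, tr_eq] at g
      refine le_trans (le_of_eq ?_) g.le
      congr 1
    · intro v hv1 hv2
      have hcv : cV (RS E ω) (Icc v (v + (L * k + k + L))) < n + 1 := by
        classical
        unfold cV
        calc _ ≤ (Icc v (v + (L * k + k + L))).card := card_le_card (filter_subset _ _)
          _ = L * k + k + L + 1 := by rw [Nat.card_Icc]; omega
          _ < n + 1 := by omega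
      have g := h5 x (by omega) hx1 hx2 v (by omega) hv1 hv2 _ hcv
      unfold HQ1 at g
      rw [Set.mem_ofPred_eq, not_le, tr_eq] at g
      refine le_trans (le_of_eq ?_) g.le
      congr 1
    · intro v hv1 hv2
      have g := h6 x (by omega) hx1 hx2 v (by omega) hv1 hv2
      unfold HQ2 at g
      rw [Set.mem_ofPred_eq, not_le, tr_eq] at g
      refine le_trans (le_of_eq ?_) g.le
      congr 1
  exact ⟨hT, sumC fun i hi => (hblk i hi).1, sumC fun i hi => (hblk i hi).2.1,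
    sumC fun i hi => (hblk i hi).2.2⟩

end Pool.Agent.CP72
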