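import Pool.Agent.CP72.DetA

/-!
# CP72/NumCS13: the numerics of the asymptotic formula
-/

set_option autoImplicit false

namespace Pool.Agent.CP72

open Filter Topology

noncomputable def kk (n : ℕ) : ℕ := ⌊24 * Real.log n ^ 2⌋₊
def LL (n : ℕ) : ℕ := Nat.sqrt n * Nat.sqrt (Nat.sqrt n)
noncomputable def DD (n : ℕ) : ℕ := ⌊(n : ℝ) / Real.log n ^ 3⌋₊
noncomputable def JJ (n : ℕ) : ℕ := 2 * n * kk n / LL n + 1
noncomputable def tt (n : ℕ) : ℝ := (LL n : ℝ) / Real.log n ^ 6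
noncomputable def c0 (n : ℕ) : ℝ := 1 / Real.log ((n : ℝ) * (kk n : ℝ) ^ 3)
noncomputable def c2 (n : ℕ) : ℝ := 1 / Real.log n

theorem hL : Tendsto (fun n : ℕ => Real.log n) atTop atTop :=
  Real.tendsto_log_atTop.comp tendsto_natCast_atTop_atTop

theorem ev_L (c : ℝ) : ∀ᶠ n : ℕ in atTop, c ≤ Real.log n := hL.eventually_ge_atTop c

theorem inv_pow_tendsto (m : ℕ) (hm : m ≠ 0) (c : ℝ) :
    Tendsto (fun n : ℕ => c / Real.log n ^ m) atTop (𝓝 0) :=
  tendsto_const_nhds.div_atTop ((tendsto_pow_atTop hm).comp hL)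

theorem kk_le (n : ℕ) : (kk n : ℝ) ≤ 24 * Real.log n ^ 2 := Nat.floor_le (by positivity)

theorem ev_kk : ∀ᶠ n : ℕ in atTop, 1 ≤ kk n := by
  filter_upwards [ev_L 1] with n hn
  unfold kk
  refine Nat.le_floor ?_
  push_cast
  nlinarith

theorem logk : Tendsto (fun n : ℕ => Real.log (kk n) / Real.log n) atTop (𝓝 0) := by
  have h1 : Tendsto (fun x : ℝ => Real.log x / x) atTop (𝓝 0) :=
    Real.isLittleO_log_id_atTop.tendsto_div_nhds_zero
  have h2 : Tendsto (fun x : ℝ => Real.log 24 / x + 2 * (Real.log x / x)) atTop (𝓝 0) := by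
    have h3 : Tendsto (fun x : ℝ => Real.log 24 / x) atTop (𝓝 0) :=
      tendsto_const_nhds.div_atTop tendsto_id
    simpa using h3.add (h1.const_mul 2)
  refine squeeze_zero' ?_ ?_ (h2.comp hL)
  · filter_upwards [ev_kk, ev_L 1] with n hk hn
    have : (1 : ℝ) ≤ kk n := by exact_mod_cast hk
    exact div_nonneg (Real.log_nonneg this) (by linarith)
  · filter_upwards [ev_kk, ev_L 1] with n hk hn
    have h3 : (1 : ℝ) ≤ kk n := by exact_mod_cast hk
    have h4 : Real.log (kk n) ≤ Real.log 24 + 2 * Real.log (Real.log n) := by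
      refine (Real.log_le_log (by linarith) (kk_le n)).trans ?_
      rw [Real.log_mul (by norm_num) (by positivity), Real.log_pow]
      push_cast
      exact le_rfl
    have h5 : (0 : ℝ) < Real.log n := by linarith
    show Real.log (kk n) / Real.log n ≤ Real.log 24 / Real.log n +
      2 * (Real.log (Real.log n) / Real.log n)
    rw [← mul_div_assoc, ← add_div]
    exact div_le_div_of_nonneg_right h4 h5.le

theorem c0L : Tendsto (fun n : ℕ => c0 n * Real.log n) atTop (𝓝 1) := by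
  have h1 : Tendsto (fun n : ℕ => 1 / (1 + 3 * (Real.log (kk n) / Real.log n))) atTop (𝓝 1) := by
    have h2 : Tendsto (fun n : ℕ => 1 + 3 * (Real.log (kk n) / Real.log n)) atTop (𝓝 1) := by
      simpa using (logk.const_mul 3).const_add 1
    have h3 := h2.inv₀ one_ne_zero
    simpa [one_div] using h3
  refine h1.congr' ?_
  filter_upwards [ev_kk, ev_L 1, eventually_ge_atTop 1] with n hk hn hn1
  have h3 : (1 : ℝ) ≤ kk n := by exact_mod_cast hk
  have h4 : (1 : ℝ) ≤ n := by exact_mod_cast hn1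
  have h5 : (0 : ℝ) < Real.log n := by linarith
  have h6 : 0 ≤ Real.log (kk n) := Real.log_nonneg h3
  unfold c0
  rw [Real.log_mul (by positivity) (by positivity), Real.log_pow]
  push_cast
  have h7 : Real.log n + 3 * Real.log (kk n) ≠ 0 := by positivity
  field_simp

theorem c0_tendsto : Tendsto c0 atTop (𝓝 0) := by
  have h := c0L.div_atTop hL
  refine h.congr' ?_
  filter_upwards [ev_L 1] with n hn
  have h5 : Real.log n ≠ 0 := by linarith
  field_simp

theorem LL_le (n : ℕ) : LL n ≤ n := by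
  unfold LL
  calc Nat.sqrt n * Nat.sqrt (Nat.sqrt n) ≤ Nat.sqrt n * Nat.sqrt n :=
        Nat.mul_le_mul_left _ (Nat.sqrt_le_self _)
    _ ≤ n := Nat.sqrt_le n

theorem ev_LL : ∀ᶠ n : ℕ in atTop, 1 ≤ LL n := by
  filter_upwards [eventually_ge_atTop 1] with n hn
  unfold LL
  have h1 : 1 ≤ Nat.sqrt n := Nat.le_sqrt.2 (by omega)
  have h2 : 1 ≤ Nat.sqrt (Nat.sqrt n) := Nat.le_sqrt.2 (by omega)
  exact Nat.one_le_iff_ne_zero.2 (Nat.mul_ne_zero (by omega) (by omega))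

/-- `J t log² n / n` -/
noncomputable def XX (n : ℕ) : ℝ := (JJ n : ℝ) * tt n * Real.log n ^ 2 / n

theorem XX_tendsto : Tendsto XX atTop (𝓝 0) := by
  have h0 : Tendsto (fun n : ℕ => 48 / Real.log n ^ 2 + 1 / Real.log n ^ 4) atTop (𝓝 0) := by
    simpa using (inv_pow_tendsto 2 (by norm_num) 48).add (inv_pow_tendsto 4 (by norm_num) 1)
  refine squeeze_zero' ?_ ?_ h0
  · filter_upwards [ev_L 1] with n hn
    unfold XX tt
    positivity
  · filter_upwards [ev_L 1, ev_LL, eventually_ge_atTop 1] with n hn hl hn1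
    have h1 : (1 : ℝ) ≤ LL n := by exact_mod_cast hl
    have h2 : (1 : ℝ) ≤ n := by exact_mod_cast hn1
    have h3 : (0 : ℝ) < Real.log n := by linarith
    have h4 : (JJ n : ℝ) ≤ 2 * n * kk n / LL n + 1 := by
      unfold JJ
      push_cast
      have := Nat.cast_div_le (m := 2 * n * kk n) (n := LL n) (α := ℝ)
      push_cast at this
      linarith
    have h5 : (JJ n : ℝ) * LL n ≤ 48 * n * Real.log n ^ 2 + n := by
      calc (JJ n : ℝ) * LL n ≤ (2 * n * kk n / LL n + 1) * LL n :=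
            mul_le_mul_of_nonneg_right h4 (by linarith)
        _ = 2 * n * kk n + LL n := by field_simp
        _ ≤ 2 * n * (24 * Real.log n ^ 2) + n := by
            have h6 := kk_le n
            have h7 : (LL n : ℝ) ≤ n := by exact_mod_cast LL_le n
            have h8 : 2 * (n : ℝ) * kk n ≤ 2 * n * (24 * Real.log n ^ 2) :=
              mul_le_mul_of_nonneg_left h6 (by linarith)
            linarith
        _ = _ := by ring
    unfold XX tt
    have e : (JJ n : ℝ) * ((LL n : ℝ) / Real.log n ^ 6) * Real.log n ^ 2 / n =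
        ((JJ n : ℝ) * LL n) / (n * Real.log n ^ 4) := by
      field_simp
    have e2 : 48 / Real.log n ^ 2 + 1 / Real.log n ^ 4 =
        (48 * n * Real.log n ^ 2 + n) / (n * Real.log n ^ 4) := by
      field_simp
    rw [e, e2]
    exact div_le_div_of_nonneg_right h5 (by positivity)

theorem DD_tendsto : Tendsto (fun n : ℕ => (DD n : ℝ) * Real.log n ^ 2 / n) atTop (𝓝 0) := by
  refine squeeze_zero' ?_ ?_ (inv_pow_tendsto 1 (by norm_num) 1)
  · filter_upwards [ev_L 1] with n hn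
    positivity
  · filter_upwards [ev_L 1, eventually_ge_atTop 1] with n hn hn1
    have h2 : (1 : ℝ) ≤ n := by exact_mod_cast hn1
    have h3 : (0 : ℝ) < Real.log n := by linarith
    have h4 : (DD n : ℝ) ≤ n / Real.log n ^ 3 := Nat.floor_le (by positivity)
    calc (DD n : ℝ) * Real.log n ^ 2 / n ≤ n / Real.log n ^ 3 * Real.log n ^ 2 / n := by
          gcongr
      _ = 1 / Real.log n ^ 1 := by field_simp

theorem DD_tendsto' : Tendsto (fun n : ℕ => (DD n : ℝ) / n) atTop (𝓝 0) := by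
  refine squeeze_zero' ?_ ?_ DD_tendsto
  · exact Eventually.of_forall fun n => by positivity
  · filter_upwards [ev_L 1, eventually_ge_atTop 1] with n hn hn1
    have h2 : (1 : ℝ) ≤ n := by exact_mod_cast hn1
    have h3 : (1 : ℝ) ≤ Real.log n ^ 2 := one_le_pow₀ hn
    have h4 : (0 : ℝ) ≤ DD n := Nat.cast_nonneg _
    refine div_le_div_of_nonneg_right ?_ (by linarith)
    nlinarith

theorem ten_tendsto : Tendsto (fun n : ℕ => 10 * Real.log n ^ 2 / (n : ℝ)) atTop (𝓝 0) := by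
  have h1 : Tendsto (fun x : ℝ => Real.log x ^ 2 / x) atTop (𝓝 0) :=
    (Real.isLittleO_pow_log_id_atTop (n := 2)).tendsto_div_nhds_zero
  have h2 := (h1.comp tendsto_natCast_atTop_atTop).const_mul 10
  simp only [mul_zero] at h2
  refine h2.congr fun n => ?_
  simp only [Function.comp]
  ring

theorem four_sq (n : ℕ) (hn : 1 ≤ n) : n ≤ 4 * Nat.sqrt n ^ 2 := by
  have h1 : 1 ≤ Nat.sqrt n := Nat.le_sqrt.2 (by omega)
  have h2 : n < (Nat.sqrt n + 1) * (Nat.sqrt n + 1) := Nat.lt_succ_sqrt n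
  nlinarith

theorem LL_sq (n : ℕ) (hn : 1 ≤ n) : (n : ℝ) * Real.sqrt n ≤ 32 * (LL n : ℝ) ^ 2 := by
  have h1 := four_sq n hn
  have ha : 1 ≤ Nat.sqrt n := Nat.le_sqrt.2 (by omega)
  have h2 := four_sq (Nat.sqrt n) ha
  have h1' : (n : ℝ) ≤ 4 * (Nat.sqrt n : ℝ) ^ 2 := by exact_mod_cast h1
  have h2' : (Nat.sqrt n : ℝ) ≤ 4 * (Nat.sqrt (Nat.sqrt n) : ℝ) ^ 2 := by exact_mod_cast h2
  have h3 : Real.sqrt n ≤ 2 * (Nat.sqrt n : ℝ) := by
    rw [Real.sqrt_le_left (by positivity)]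
    nlinarith
  have h4 : (0 : ℝ) ≤ Nat.sqrt n := Nat.cast_nonneg _
  have h5 : (0 : ℝ) ≤ n := Nat.cast_nonneg _
  unfold LL
  push_cast
  calc (n : ℝ) * Real.sqrt n ≤ (4 * (Nat.sqrt n : ℝ) ^ 2) * (2 * (Nat.sqrt n : ℝ)) :=
        mul_le_mul h1' h3 (Real.sqrt_nonneg _) (by positivity)
    _ ≤ (4 * (Nat.sqrt n : ℝ) ^ 2) * (2 * (4 * (Nat.sqrt (Nat.sqrt n) : ℝ) ^ 2)) := by
        refine mul_le_mul_of_nonneg_left ?_ (by positivity)
        linarith
    _ = 32 * ((Nat.sqrt n : ℝ) * (Nat.sqrt (Nat.sqrt n) : ℝ)) ^ 2 := by ring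

theorem ev_rpow (C : ℝ) (hC : 0 < C) (m : ℕ) (a : ℝ) (ha : 0 < a) :
    ∀ᶠ n : ℕ in atTop, C * Real.log n ^ m ≤ (n : ℝ) ^ a := by
  have h := isLittleO_log_rpow_rpow_atTop (m : ℝ) ha
  have h2 := (h.def (show 0 < C⁻¹ by positivity))
  have h3 := tendsto_natCast_atTop_atTop (R := ℝ) |>.eventually h2
  filter_upwards [h3, ev_L 1] with n hn hl
  rw [Real.norm_of_nonneg (Real.rpow_nonneg (by linarith) _),
    Real.norm_of_nonneg (Real.rpow_nonneg (Nat.cast_nonneg _) _), Real.rpow_natCast] at hn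
  rw [inv_mul_eq_div, le_div_iff₀ hC] at hn
  linarith

theorem ev_sqrt (C : ℝ) (hC : 0 < C) : ∀ᶠ n : ℕ in atTop, C * Real.log n ^ 21 ≤ Real.sqrt n := by
  have h := isLittleO_log_rpow_rpow_atTop (21 : ℝ) (show (0 : ℝ) < 1 / 2 by norm_num)
  have h2 := (h.def (show 0 < C⁻¹ by positivity))
  have h3 := tendsto_natCast_atTop_atTop (R := ℝ) |>.eventually h2
  filter_upwards [h3, ev_L 1] with n hn hl
  rw [Real.norm_of_nonneg (Real.rpow_nonneg (by linarith) _),
    Real.norm_of_nonneg (Real.rpow_nonneg (Nat.cast_nonneg _) _), ← Real.sqrt_eq_rpow,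
    show (21 : ℝ) = ((21 : ℕ) : ℝ) by norm_num, Real.rpow_natCast] at hn
  rw [inv_mul_eq_div, le_div_iff₀ hC] at hn
  linarith

theorem LL_le_rpow (n : ℕ) : (LL n : ℝ) ≤ (n : ℝ) ^ (3 / 4 : ℝ) := by
  have h1 : (Nat.sqrt n : ℝ) ≤ Real.sqrt n := Real.nat_sqrt_le_real_sqrt
  have h2 : (Nat.sqrt (Nat.sqrt n) : ℝ) ≤ Real.sqrt (Real.sqrt n) :=
    Real.nat_sqrt_le_real_sqrt.trans (Real.sqrt_le_sqrt h1)
  unfold LL
  push_cast
  have h0 : (0 : ℝ) ≤ n := Nat.cast_nonneg _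
  calc (Nat.sqrt n : ℝ) * (Nat.sqrt (Nat.sqrt n) : ℝ) ≤ Real.sqrt n * Real.sqrt (Real.sqrt n) :=
        mul_le_mul h1 h2 (Nat.cast_nonneg _) (Real.sqrt_nonneg _)
    _ = (n : ℝ) ^ (3 / 4 : ℝ) := by
        rw [Real.sqrt_eq_rpow, Real.sqrt_eq_rpow, ← Real.rpow_mul h0,
          ← Real.rpow_add_of_nonneg h0 (by norm_num) (by norm_num)]
        norm_num

theorem ev_kk24 (c : ℕ) : ∀ᶠ n : ℕ in atTop, c ≤ kk n := by
  filter_upwards [ev_L (max 1 c)] with n hn
  have h1 : (1 : ℝ) ≤ Real.log n := (le_max_left _ _).trans hn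
  have h2 : (c : ℝ) ≤ Real.log n := (le_max_right _ _).trans hn
  unfold kk
  refine Nat.le_floor ?_
  nlinarith

/-- the last number -/
noncomputable def Xe (n : ℕ) : ℕ := DD n + JJ n * LL n + LL n

/-- the bound for all elements -/
noncomputable def YY (n : ℕ) : ℕ := 9 + (Xe n + 2 * n) * (kk n + 1)

noncomputable def c1 (n : ℕ) : ℝ := 1 / Real.log (YY n)

theorem DD_le_n {n : ℕ} (hl : 1 ≤ Real.log n) : DD n ≤ n := by
  unfold DD
  have h : (n : ℝ) / Real.log n ^ 3 ≤ n :=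
    div_le_self (Nat.cast_nonneg _) (one_le_pow₀ hl)
  exact (Nat.floor_le_floor h).trans (by rw [Nat.floor_natCast])

theorem JL_le (n : ℕ) : JJ n * LL n ≤ 2 * n * kk n + n := by
  unfold JJ
  calc (2 * n * kk n / LL n + 1) * LL n = 2 * n * kk n / LL n * LL n + LL n := by ring
    _ ≤ 2 * n * kk n + n := add_le_add (Nat.div_mul_le_self _ _) (LL_le n)

theorem JL_ge {n : ℕ} (hL : 1 ≤ LL n) : 2 * n * kk n ≤ JJ n * LL n := by
  unfold JJ
  have h := Nat.lt_div_mul_add (a := 2 * n * kk n) (b := LL n) (by omega)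
  calc 2 * n * kk n ≤ 2 * n * kk n / LL n * LL n + LL n := h.le
    _ = _ := by ring

theorem Xe_le {n : ℕ} (hl : 1 ≤ Real.log n) : Xe n + 2 * n ≤ 2 * n * kk n + 5 * n := by
  unfold Xe
  have h1 := DD_le_n hl
  have h2 := JL_le n
  have h3 := LL_le n
  omega

theorem YY_le {n : ℕ} (hl : 1 ≤ Real.log n) (hk : 8 ≤ kk n) (hn : 9 ≤ n) :
    YY n ≤ n * kk n ^ 3 := by
  unfold YY
  have h1 := Xe_le hl
  have h2 : (Xe n + 2 * n) * (kk n + 1) ≤ (2 * n * kk n + 5 * n) * (kk n + 1) :=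
    Nat.mul_le_mul_right _ h1
  have h3 : (2 * n * kk n + 5 * n) * (kk n + 1) = n * (2 * kk n ^ 2 + 7 * kk n + 5) := by ring
  have h4 : 2 * kk n ^ 2 + 7 * kk n + 6 ≤ kk n ^ 3 := by
    have : kk n ^ 3 = kk n * kk n ^ 2 := by ring
    nlinarith
  calc 9 + (Xe n + 2 * n) * (kk n + 1) ≤ n + n * (2 * kk n ^ 2 + 7 * kk n + 5) := by
        rw [← h3]
        exact add_le_add hn h2
    _ = n * (2 * kk n ^ 2 + 7 * kk n + 6) := by ring
    _ ≤ n * kk n ^ 3 := Nat.mul_le_mul_left _ h4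

theorem YY_ge (n : ℕ) : n + 9 ≤ YY n := by
  unfold YY
  have : n ≤ (Xe n + 2 * n) * (kk n + 1) := by nlinarith [Nat.zero_le (Xe n), Nat.zero_le (kk n)]
  omega

theorem c1_pos (n : ℕ) : 0 < c1 n := by
  unfold c1
  have h := YY_ge n
  have h2 : (1 : ℝ) < YY n := by exact_mod_cast (show 1 < YY n by omega)
  exact one_div_pos.2 (Real.log_pos h2)

theorem c1_le_c2 {n : ℕ} (hl : 1 ≤ Real.log n) : c1 n ≤ c2 n := by
  unfold c1 c2
  have hn : (0 : ℝ) < n := by
    rcases Nat.eq_zero_or_pos n with h | h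
    · rw [h, Nat.cast_zero, Real.log_zero] at hl
      linarith
    · exact_mod_cast h
  refine one_div_le_one_div_of_le (by linarith) (Real.log_le_log hn ?_)
  have h := YY_ge n
  exact_mod_cast (show n ≤ YY n by omega)

theorem c1_bounds {n m : ℕ} (hl : 1 ≤ Real.log n) (h1 : n ≤ m) (h2 : m ≤ YY n) :
    c1 n ≤ 1 / Real.log m ∧ 1 / Real.log m ≤ c2 n := by
  have hn : (0 : ℝ) < n := by
    rcases Nat.eq_zero_or_pos n with h | h
    · rw [h, Nat.cast_zero, Real.log_zero] at hl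
      linarith
    · exact_mod_cast h
  have h3 : (n : ℝ) ≤ m := by exact_mod_cast h1
  have h4 : Real.log n ≤ Real.log m := Real.log_le_log hn h3
  refine ⟨?_, one_div_le_one_div_of_le (by linarith) h4⟩
  refine one_div_le_one_div_of_le (by linarith) (Real.log_le_log (by linarith) ?_)
  exact_mod_cast h2

theorem c1L : Tendsto (fun n : ℕ => c1 n * Real.log n) atTop (𝓝 1) := by
  refine tendsto_of_tendsto_of_tendsto_of_le_of_le' c0L tendsto_const_nhds ?_ ?_
  · filter_upwards [ev_L 1, ev_kk24 8, eventually_ge_atTop 9] with n hl hk hn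
    refine mul_le_mul_of_nonneg_right ?_ (by linarith)
    unfold c0 c1
    have h := YY_ge n
    have h2 : (1 : ℝ) < YY n := by exact_mod_cast (show 1 < YY n by omega)
    refine one_div_le_one_div_of_le (Real.log_pos h2) (Real.log_le_log (by linarith) ?_)
    exact_mod_cast YY_le hl hk hn
  · filter_upwards [ev_L 1] with n hl
    have h := c1_le_c2 hl
    calc c1 n * Real.log n ≤ c2 n * Real.log n := mul_le_mul_of_nonneg_right h (by linarith)
      _ = 1 := by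
        unfold c2
        exact one_div_mul_cancel (by linarith)

theorem c1_tendsto : Tendsto c1 atTop (𝓝 0) := by
  have h := c1L.div_atTop hL
  refine h.congr' ?_
  filter_upwards [ev_L 1] with n hn
  have h5 : Real.log n ≠ 0 := by linarith
  field_simp

/-- the squeeze -/
theorem squeeze {s : ℕ → ℝ}
    (h1 : ∀ᶠ n : ℕ in atTop, c1 n * (c1 n * ((n : ℝ) - 2 * DD n) - JJ n * tt n) - JJ n * tt n ≤ s n)
    (h2 : ∀ᶠ n : ℕ in atTop,
      s n ≤ c2 n * (c2 n * (n : ℝ) + JJ n * tt n) + JJ n * tt n + 2 * DD n + 10) :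
    Tendsto (fun n : ℕ => s n * Real.log n ^ 2 / n) atTop (𝓝 1) := by
  have hlo : Tendsto (fun n : ℕ => (c1 n * Real.log n) ^ 2 * (1 - 2 * ((DD n : ℝ) / n)) -
      c1 n * XX n - XX n) atTop (𝓝 1) := by
    have h3 := ((c1L.pow 2).mul ((DD_tendsto'.const_mul 2).const_sub 1)).sub
      (c1_tendsto.mul XX_tendsto)
    have h4 := h3.sub XX_tendsto
    simpa using h4
  have c2_tendsto : Tendsto c2 atTop (𝓝 0) := tendsto_const_nhds.div_atTop hL
  have hup : Tendsto (fun n : ℕ => 1 + c2 n * XX n + XX n + 2 * ((DD n : ℝ) * Real.log n ^ 2 / n) +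
      10 * Real.log n ^ 2 / n) atTop (𝓝 1) := by
    have h3 := ((((c2_tendsto.mul XX_tendsto).const_add 1).add XX_tendsto).add
      (DD_tendsto.const_mul 2)).add ten_tendsto
    simpa using h3
  refine tendsto_of_tendsto_of_tendsto_of_le_of_le' hlo hup ?_ ?_
  · filter_upwards [h1, ev_L 1, eventually_ge_atTop 1] with n hn hl hn1
    have h5 : (1 : ℝ) ≤ n := by exact_mod_cast hn1
    have h6 : (0 : ℝ) < Real.log n := by linarith
    have h7 := mul_le_mul_of_nonneg_right hn (show (0 : ℝ) ≤ Real.log n ^ 2 / n by positivity)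
    rw [← mul_div_assoc] at h7
    rw [mul_div_assoc]
    rw [mul_div_assoc] at h7
    refine le_trans (le_of_eq ?_) h7
    unfold XX
    field_simp
  · filter_upwards [h2, ev_L 1, eventually_ge_atTop 1] with n hn hl hn1
    have h5 : (1 : ℝ) ≤ n := by exact_mod_cast hn1
    have h6 : (0 : ℝ) < Real.log n := by linarith
    have h7 := mul_le_mul_of_nonneg_right hn (show (0 : ℝ) ≤ Real.log n ^ 2 / n by positivity)
    rw [mul_div_assoc]
    refine le_trans h7 (le_of_eq ?_)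
    unfold XX c2
    field_simp


theorem ev_small : ∀ᶠ n : ℕ in atTop, 14 * kk n ^ 2 ≤ n := by
  filter_upwards [ev_rpow 8064 (by norm_num) 4 1 (by norm_num), ev_L 1] with n hn hl
  rw [Real.rpow_one] at hn
  have h1 := kk_le n
  have h2 : (kk n : ℝ) ^ 2 ≤ (24 * Real.log n ^ 2) ^ 2 :=
    pow_le_pow_left₀ (Nat.cast_nonneg _) h1 2
  have h3 : (14 : ℝ) * (kk n : ℝ) ^ 2 ≤ n := by nlinarith
  exact_mod_cast h3

theorem ev_hw : ∀ᶠ n : ℕ in atTop, 16 * (LL n * kk n + kk n + LL n) ≤ DD n := by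
  filter_upwards [ev_rpow 1176 (by norm_num) 5 (1 / 4) (by norm_num), ev_L 1, ev_kk, ev_LL,
    eventually_ge_atTop 1] with n hn hl hk hL1 hn1
  have hn0 : (0 : ℝ) < n := by exact_mod_cast hn1
  have hl0 : (0 : ℝ) < Real.log n := by linarith
  have hk1 : (1 : ℝ) ≤ kk n := by exact_mod_cast hk
  have hL2 : (1 : ℝ) ≤ LL n := by exact_mod_cast hL1
  unfold DD
  refine Nat.le_floor ?_
  push_cast
  rw [le_div_iff₀ (by positivity)]
  have h1 : (LL n : ℝ) * kk n + kk n + LL n ≤ 3 * (LL n * kk n) := by nlinarith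
  have h2 : (LL n : ℝ) * kk n ≤ (n : ℝ) ^ (3 / 4 : ℝ) * (24 * Real.log n ^ 2) :=
    mul_le_mul (LL_le_rpow n) (kk_le n) (Nat.cast_nonneg _) (by positivity)
  have h3 : (n : ℝ) ^ (3 / 4 : ℝ) * (n : ℝ) ^ (1 / 4 : ℝ) = n := by
    rw [← Real.rpow_add hn0]
    norm_num
  have h4 : (0 : ℝ) ≤ (n : ℝ) ^ (3 / 4 : ℝ) := by positivity
  calc 16 * ((LL n : ℝ) * kk n + kk n + LL n) * Real.log n ^ 3
      ≤ 16 * (3 * ((n : ℝ) ^ (3 / 4 : ℝ) * (24 * Real.log n ^ 2))) * Real.log n ^ 3 := by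
        refine mul_le_mul_of_nonneg_right ?_ (by positivity)
        linarith
    _ = (n : ℝ) ^ (3 / 4 : ℝ) * (1152 * Real.log n ^ 5) := by ring
    _ ≤ (n : ℝ) ^ (3 / 4 : ℝ) * (n : ℝ) ^ (1 / 4 : ℝ) := by
        refine mul_le_mul_of_nonneg_left ?_ h4
        have : (0 : ℝ) ≤ Real.log n ^ 5 := by positivity
        linarith
    _ = n := h3

theorem ev_hD : ∀ᶠ n : ℕ in atTop, 16 * DD n ≤ n := by
  filter_upwards [ev_L 3] with n hl
  have h1 : (DD n : ℝ) ≤ n / Real.log n ^ 3 := Nat.floor_le (by positivity)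
  have h2 : (16 : ℝ) ≤ Real.log n ^ 3 := by
    have : (3 : ℝ) ^ 3 ≤ Real.log n ^ 3 := pow_le_pow_left₀ (by norm_num) hl 3
    linarith
  have h3 : (n : ℝ) / Real.log n ^ 3 ≤ n / 16 :=
    div_le_div_of_nonneg_left (Nat.cast_nonneg _) (by norm_num) h2
  have h4 : 16 * (DD n : ℝ) ≤ n := by linarith
  exact_mod_cast h4

theorem ev_sz : ∀ᶠ n : ℕ in atTop, SzA n (kk n) (LL n) (DD n) (Xe n) := by
  filter_upwards [ev_kk24 8, ev_hw, ev_hD, ev_small, ev_L 1] with n h1 h2 h3 h4 h5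
  refine ⟨h1, h2, h3, ?_⟩
  have h6 := Xe_le h5
  have h7 : Xe n + 2 * n ≤ 7 * n * kk n := by nlinarith
  calc 2 * ((Xe n + 2 * n) * kk n) ≤ 2 * (7 * n * kk n * kk n) := by gcongr
    _ = n * (14 * kk n ^ 2) := by ring
    _ ≤ n * n := Nat.mul_le_mul_left _ h4
    _ = n ^ 2 := by ring

theorem ev_kL : ∀ᶠ n : ℕ in atTop, 4 * kk n ≤ LL n := by
  filter_upwards [ev_sqrt 192 (by norm_num), ev_L 1, eventually_ge_atTop 1] with n hn hl hn1
  have h1 : Real.sqrt n ≤ 2 * (Nat.sqrt n : ℝ) := by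
    have h0 : (n : ℝ) ≤ 4 * (Nat.sqrt n : ℝ) ^ 2 := by exact_mod_cast four_sq n hn1
    rw [Real.sqrt_le_left (by positivity)]
    nlinarith
  have h2 : (Real.log n) ^ 2 ≤ Real.log n ^ 21 := pow_le_pow_right₀ hl (by norm_num)
  have h3 := kk_le n
  have h4 : (4 * kk n : ℝ) ≤ Nat.sqrt n := by nlinarith
  have h5 : 4 * kk n ≤ Nat.sqrt n := by exact_mod_cast h4
  have ha : 1 ≤ Nat.sqrt n := Nat.le_sqrt.2 (by omega)
  have hb : 1 ≤ Nat.sqrt (Nat.sqrt n) := Nat.le_sqrt.2 (by omega)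
  unfold LL
  calc 4 * kk n ≤ Nat.sqrt n * 1 := by omega
    _ ≤ _ := Nat.mul_le_mul_left _ hb

theorem ev_two : ∀ᶠ n : ℕ in atTop, 8 + kk n ≤ DD n ∧ 8 + n * kk n ≤ n ^ 2 ∧
    8 + n * kk n ≤ DD n + JJ n * LL n ∧ 1 ≤ LL n ∧ 1 ≤ DD n ∧ JJ n ≤ n := by
  filter_upwards [ev_kk24 8, ev_hw, ev_small, ev_LL, ev_kL, eventually_ge_atTop 9]
    with n h1 h2 h3 h4 h5 h6
  have h7 := JL_ge h4
  have h8 : 8 ≤ n * kk n := by nlinarith
  refine ⟨by nlinarith, ?_, by nlinarith, h4, by nlinarith, ?_⟩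
  · have h9 : 14 * kk n ≤ n := by nlinarith
    nlinarith
  · unfold JJ
    have h10 : 2 * n * kk n / LL n ≤ 2 * n * kk n / (4 * kk n) :=
      Nat.div_le_div_left h5 (by omega)
    have h11 : 2 * n * kk n / (4 * kk n) ≤ n / 2 := by
      have : 2 * n * kk n = (2 * kk n) * n := by ring
      have e2 : 4 * kk n = (2 * kk n) * 2 := by ring
      rw [this, e2, Nat.mul_div_mul_left _ _ (by omega)]
    omega

theorem ev_exp : ∀ᶠ n : ℕ in atTop, Real.exp (-((n : ℝ) / 4)) ≤ 1 / (n : ℝ) ^ 9 := by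
  filter_upwards [ev_rpow 36 (by norm_num) 1 1 (by norm_num), eventually_ge_atTop 1] with n hn hn1
  rw [Real.rpow_one, pow_one] at hn
  have hn0 : (0 : ℝ) < n := by exact_mod_cast hn1
  calc Real.exp (-((n : ℝ) / 4)) ≤ Real.exp (-(9 * Real.log n)) :=
        Real.exp_le_exp.2 (by linarith)
    _ = 1 / (n : ℝ) ^ 9 := by
        rw [Real.exp_neg, show (9 : ℝ) * Real.log n = ((9 : ℕ) : ℝ) * Real.log n by norm_num,
          Real.exp_nat_mul, Real.exp_log hn0, one_div]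

theorem ev_geo : ∀ᶠ n : ℕ in atTop, (1 - 1 / (3 * Real.log n)) ^ kk n ≤ 1 / (n : ℝ) ^ 7 := by
  filter_upwards [ev_L 1, eventually_ge_atTop 1] with n hl hn1
  have hn0 : (0 : ℝ) < n := by exact_mod_cast hn1
  have hl0 : (0 : ℝ) < Real.log n := by linarith
  have h0 : 0 ≤ 1 - 1 / (3 * Real.log n) := by
    rw [sub_nonneg, div_le_one (by positivity)]
    linarith
  have h1 : 1 - 1 / (3 * Real.log n) ≤ Real.exp (-(1 / (3 * Real.log n))) := by
    have := Real.add_one_le_exp (-(1 / (3 * Real.log n)))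
    linarith
  have h2 : 24 * Real.log n ^ 2 - 1 ≤ kk n := by
    unfold kk
    linarith [Nat.lt_floor_add_one (24 * Real.log n ^ 2)]
  have h3 : 7 * Real.log n ≤ kk n * (1 / (3 * Real.log n)) := by
    rw [mul_one_div, le_div_iff₀ (by positivity)]
    nlinarith
  calc (1 - 1 / (3 * Real.log n)) ^ kk n ≤ Real.exp (-(1 / (3 * Real.log n))) ^ kk n :=
        pow_le_pow_left₀ h0 h1 _
    _ = Real.exp (-(kk n * (1 / (3 * Real.log n)))) := by
        rw [← Real.exp_nat_mul]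
        ring_nf
    _ ≤ Real.exp (-(7 * Real.log n)) := Real.exp_le_exp.2 (by linarith)
    _ = 1 / (n : ℝ) ^ 7 := by
        rw [Real.exp_neg, show (7 : ℝ) * Real.log n = ((7 : ℕ) : ℝ) * Real.log n by norm_num,
          Real.exp_nat_mul, Real.exp_log hn0, one_div]

/-- the tail -/
theorem tail : ∀ᶠ n : ℕ in atTop,
    2 * Real.exp (-(tt n ^ 2 / (2 * (kk n : ℝ) ^ 4 * (3 * n)))) ≤ 1 / (n : ℝ) ^ 9 := by
  filter_upwards [ev_sqrt (10 * 63700992) (by norm_num), ev_L 1, ev_kk, eventually_ge_atTop 2]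
    with n hn hl hk hn2
  have h2 : (2 : ℝ) ≤ n := by exact_mod_cast hn2
  have hn0 : (0 : ℝ) < n := by linarith
  have hl0 : (0 : ℝ) < Real.log n := by linarith
  have hk1 : (1 : ℝ) ≤ kk n := by exact_mod_cast hk
  have hk4 : (kk n : ℝ) ^ 4 ≤ 331776 * Real.log n ^ 8 := by
    calc (kk n : ℝ) ^ 4 ≤ (24 * Real.log n ^ 2) ^ 4 :=
          pow_le_pow_left₀ (by linarith) (kk_le n) 4
      _ = _ := by ring
  have hkey : 10 * Real.log n ≤ tt n ^ 2 / (2 * (kk n : ℝ) ^ 4 * (3 * n)) := by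
    rw [le_div_iff₀ (by positivity)]
    have h3 : tt n ^ 2 = (LL n : ℝ) ^ 2 / Real.log n ^ 12 := by
      unfold tt
      rw [div_pow, ← pow_mul]
    have h4 := LL_sq n (by omega)
    rw [h3, le_div_iff₀ (by positivity)]
    have h5 : 10 * Real.log n * (2 * (kk n : ℝ) ^ 4 * (3 * n)) * Real.log n ^ 12 ≤
        10 * Real.log n * (2 * (331776 * Real.log n ^ 8) * (3 * n)) * Real.log n ^ 12 := by
      gcongr
    refine h5.trans ?_
    have h6 : 10 * Real.log n * (2 * (331776 * Real.log n ^ 8) * (3 * n)) * Real.log n ^ 12 =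
        n * (10 * 63700992 * Real.log n ^ 21) / 32 := by ring
    rw [h6]
    have h7 := mul_le_mul_of_nonneg_left hn hn0.le
    linarith
  have h8 : Real.exp (-(tt n ^ 2 / (2 * (kk n : ℝ) ^ 4 * (3 * n)))) ≤ 1 / (n : ℝ) ^ 10 := by
    calc Real.exp (-(tt n ^ 2 / (2 * (kk n : ℝ) ^ 4 * (3 * n))))
        ≤ Real.exp (-(10 * Real.log n)) := Real.exp_le_exp.2 (by linarith)
      _ = 1 / (n : ℝ) ^ 10 := by
          rw [Real.exp_neg, show (10 : ℝ) * Real.log n = ((10 : ℕ) : ℝ) * Real.log n by norm_num,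
            Real.exp_nat_mul, Real.exp_log hn0, one_div]
  calc 2 * Real.exp (-(tt n ^ 2 / (2 * (kk n : ℝ) ^ 4 * (3 * n)))) ≤ 2 * (1 / (n : ℝ) ^ 10) := by
        linarith
    _ ≤ n * (1 / (n : ℝ) ^ 10) := mul_le_mul_of_nonneg_right h2 (by positivity)
    _ = 1 / (n : ℝ) ^ 9 := by field_simp

theorem ev_tail : ∀ᶠ n : ℕ in atTop,
    2 * Real.exp (-(tt n ^ 2 / (2 * ((kk n : ℝ) ^ 2) ^ 2 * (3 * n)))) ≤ 1 / (n : ℝ) ^ 7 := by
  filter_upwards [tail, eventually_ge_atTop 1] with n hn hn1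
  have h1 : (1 : ℝ) ≤ n := by exact_mod_cast hn1
  rw [← pow_mul]
  refine hn.trans ?_
  exact one_div_le_one_div_of_le (by positivity) (pow_le_pow_right₀ h1 (by norm_num))

theorem tt_nonneg {n : ℕ} : 0 ≤ tt n := by
  unfold tt
  positivity

end Pool.Agent.CP72
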