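import Pool.Agent.CP72.Comb
import Pool.Agent.CP72.Ev2
import Pool.Agent.CP72.NumCS13
import Pool.Agent.CP70.NumS25
import Pool.Agent.CP25.Main

/-!
# CP72/Main: the number of the indices is asymptotically `n / (log n)^2`
-/

set_option autoImplicit false

namespace Pool.Agent.CP72

open MeasureTheory ProbabilityTheory Finset Filter Topology Pool.Agent.CP25 Pool.Agent.CP69

variable {Ω : Type*} [mΩ : MeasurableSpace Ω] {μ : Measure Ω} {E : ℕ → Set Ω}

theorem main72 [IsProbabilityMeasure μ] (hE : ∀ m, MeasurableSet (E m)) (hi : iIndepSet E μ)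
    (hp : ∀ m, 3 ≤ m → μ.real (E m) = 1 / Real.log m) :
    ∀ᵐ ω ∂μ,
      Tendsto (fun n : ℕ => (num1 (RS E ω) n : ℝ) * Real.log n ^ 2 / n) atTop (𝓝 1) ∧
      Tendsto (fun n : ℕ => (num2 (RS E ω) n : ℝ) * Real.log n ^ 2 / n) atTop (𝓝 1) := by
  have hb : ∀ᶠ n in atTop, μ.real (Bad72 E n (Pool.Agent.CP72.kk n) (LL n) (DD n) (Xe n) (tt n)) ≤
      20 * (1 / (n : ℝ) ^ 2) := by
    filter_upwards [ev_sz, Pool.Agent.CP70.N3, ev_geo, ev_exp, ev_tail, eventually_ge_atTop 1] with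
      n h1 h4 h8 h9 h10 h12
    have hn : (0 : ℝ) < n := by exact_mod_cast h12
    have hn1 : (1 : ℝ) ≤ n := by exact_mod_cast h12
    have hf1 : ∀ m, μ.real (E m) ≤ 1 := fun m => measureReal_le_one
    have hf2 : ∀ m, 3 ≤ m → μ.real (E m) ≤ 1 / Real.log m := fun m hm => (hp m hm).le
    have h97 : Real.exp (-((n : ℝ) / 4)) ≤ 1 / (n : ℝ) ^ 7 := by
      refine h9.trans (one_div_le_one_div_of_le (by positivity) ?_)
      exact pow_le_pow_right₀ hn1 (by norm_num)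
    have h107 : 2 * Real.exp (-(tt n ^ 2 / (2 * (Pool.Agent.CP72.kk n : ℝ) ^ 4 * (3 * n)))) ≤
        1 / (n : ℝ) ^ 7 := by
      have e : ((Pool.Agent.CP72.kk n : ℝ) ^ 2) ^ 2 = (Pool.Agent.CP72.kk n : ℝ) ^ 4 := by ring
      rw [← e]
      exact h10
    refine (bad72_le hE hi hp h1 tt_nonneg (fun y hy => h4 y hy _ hf1 hf2) h8 h97
      h107).trans (le_of_eq ?_)
    field_simp
  have hs : Summable (fun n : ℕ => 20 * (1 / (n : ℝ) ^ 2)) :=
    (Real.summable_one_div_nat_pow.2 (by norm_num)).mul_left 20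
  filter_upwards [bc hs hb] with ω hω
  have hfin : ∀ᶠ n : ℕ in atTop,
      (c1 n * (c1 n * (n - 2 * DD n) - JJ n * tt n) - JJ n * tt n ≤ num1 (RS E ω) n ∧
        (num1 (RS E ω) n : ℝ) ≤ c2 n * (c2 n * n + JJ n * tt n) + JJ n * tt n + 2 * DD n) ∧
      (c1 n * (c1 n * (n - 2 * DD n) - JJ n * tt n) - JJ n * tt n ≤ num2 (RS E ω) n ∧
        (num2 (RS E ω) n : ℝ) ≤ c2 n * (c2 n * n + JJ n * tt n) + JJ n * tt n + 2 * DD n) := by
    filter_upwards [hω, ev_sz, ev_two, ev_L 1] with n h1 h2 h3 h4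
    obtain ⟨g1, g2, g3, g4, g5, g6⟩ := h3
    have ht : 0 < tt n := by
      unfold tt
      have : (0 : ℝ) < LL n := by exact_mod_cast g4
      positivity
    have hX : DD n + JJ n * LL n + LL n ≤ Xe n := le_of_eq rfl
    obtain ⟨hT, k1, k2, k3⟩ := ineq72 (J := JJ n) (x0 := DD n) (Y := YY n) (c1 := c1 n)
      (c2 := c2 n) h2 ht h1 g1 (by omega) (le_of_eq rfl) (fun m hm1 hm2 => c1_bounds h4 hm1 hm2)
    have hc2 : 0 ≤ c2 n := by
      unfold c2
      positivity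
    exact comb h2 hT g1 hX g4 g2 g3 (c1_pos n).le hc2 k1 k2 k3
  refine ⟨squeeze ?_ ?_, squeeze ?_ ?_⟩
  · filter_upwards [hfin] with n h
    exact h.1.1
  · filter_upwards [hfin] with n h
    linarith [h.1.2]
  · filter_upwards [hfin] with n h
    exact h.2.1
  · filter_upwards [hfin] with n h
    linarith [h.2.2]

end Pool.Agent.CP72
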