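import Pool.Agent.CP72.Comb
import Pool.Agent.CP72.Ev2
import Pool.Agent.CP72.NumCS13
import Pool.Agent.CP70.NumS25
import Pool.Agent.CP25.Main

/-!
# CP72/MainS25: the asymptotics
-/

set_option autoImplicit false

namespace Pool.Agent.CP72

open MeasureTheory ProbabilityTheory Finset Filter Topology Pool.Agent.CP69
open Pool.Agent.CP25 (RS)

variable {Ω : Type*} [mΩ : MeasurableSpace Ω] {μ : Measure Ω} {E : ℕ → Set Ω}

theorem fin25 [IsProbabilityMeasure μ] (hE : ∀ m, MeasurableSet (E m)) (hi : iIndepSet E μ)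
    (hp : ∀ m, 3 ≤ m → μ.real (E m) = 1 / Real.log m) :
    ∀ᵐ ω ∂μ,
      Tendsto (fun n : ℕ => (num1 (RS E ω) n : ℝ) * Real.log n ^ 2 / n) atTop (𝓝 1) ∧
      Tendsto (fun n : ℕ => (num2 (RS E ω) n : ℝ) * Real.log n ^ 2 / n) atTop (𝓝 1) := by
  obtain ⟨bad, hbad⟩ : ∃ bad : ℕ → Set Ω, bad = fun n =>
      Bad72 E n (kk n) (LL n) (DD n) (Xe n) (tt n) := ⟨_, rfl⟩
  have hb : ∀ᶠ n in atTop, μ.real (bad n) ≤ 20 * (1 / (n : ℝ) ^ 2) := by
    filter_upwards [ev_sz, Pool.Agent.CP70.N3, ev_exp, ev_geo, ev_tail, eventually_ge_atTop 1] with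
      n h1 h4 h5 h6 h7 h12
    have hn : (0 : ℝ) < n := by exact_mod_cast h12
    have hn1 : (1 : ℝ) ≤ n := by exact_mod_cast h12
    have hf1 : ∀ m, μ.real (E m) ≤ 1 := fun m => measureReal_le_one
    have hf2 : ∀ m, 3 ≤ m → μ.real (E m) ≤ 1 / Real.log m := fun m hm => (hp m hm).le
    rw [hbad]
    have r2 : Real.exp (-((n : ℝ) / 4)) ≤ 1 / (n : ℝ) ^ 7 := by
      refine h5.trans (one_div_le_one_div_of_le (by positivity) ?_)
      exact pow_le_pow_right₀ hn1 (by norm_num)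
    have e : ((kk n : ℝ) ^ 2) ^ 2 = (kk n : ℝ) ^ 4 := by ring
    rw [e] at h7
    refine (bad72_le hE hi hp h1 tt_nonneg (fun y hy => h4 y hy _ hf1 hf2) h6 r2 h7).trans
      (le_of_eq ?_)
    field_simp
  have hs : Summable (fun n : ℕ => 20 * (1 / (n : ℝ) ^ 2)) :=
    (Real.summable_one_div_nat_pow.2 (by norm_num)).mul_left 20
  filter_upwards [Pool.Agent.CP25.bc hs hb] with ω hω
  have key : ∀ᶠ n : ℕ in atTop,
      (c1 n * (c1 n * (n - 2 * DD n) - JJ n * tt n) - JJ n * tt n ≤ num1 (RS E ω) n ∧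
      (num1 (RS E ω) n : ℝ) ≤ c2 n * (c2 n * n + JJ n * tt n) + JJ n * tt n + 2 * DD n) ∧
      (c1 n * (c1 n * (n - 2 * DD n) - JJ n * tt n) - JJ n * tt n ≤ num2 (RS E ω) n ∧
      (num2 (RS E ω) n : ℝ) ≤ c2 n * (c2 n * n + JJ n * tt n) + JJ n * tt n + 2 * DD n) := by
    filter_upwards [hω, ev_sz, ev_two, ev_L 1] with n h1 h2 h3 h4
    obtain ⟨g1, g2, g3, g4, g5, g6⟩ := h3
    have hL1 : (1 : ℝ) ≤ LL n := by exact_mod_cast g4
    have htt : 0 < tt n := by
      unfold tt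
      positivity
    rw [hbad] at h1
    obtain ⟨hT, i1, i2, i3⟩ := ineq72 (J := JJ n) (Y := YY n) (x0 := DD n) (c1 := c1 n)
      (c2 := c2 n) h2 htt h1 g1 (by unfold Xe; omega) le_rfl
      (fun m hm hm' => c1_bounds h4 hm hm')
    have hc1 : 0 ≤ c1 n := by
      unfold c1
      refine div_nonneg zero_le_one (Real.log_natCast_nonneg _)
    have hc2 : 0 ≤ c2 n := by
      unfold c2
      positivity
    exact comb h2 hT g1 (by unfold Xe; omega) g4 g2 g3 hc1 hc2 i1 i2 i3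
  constructor
  · refine squeeze (s := fun n => (num1 (RS E ω) n : ℝ)) ?_ ?_
    · filter_upwards [key] with n h
      exact h.1.1
    · filter_upwards [key] with n h
      exact h.1.2.trans (by linarith)
  · refine squeeze (s := fun n => (num2 (RS E ω) n : ℝ)) ?_ ?_
    · filter_upwards [key] with n h
      exact h.2.1
    · filter_upwards [key] with n h
      exact h.2.2.trans (by linarith)

end Pool.Agent.CP72
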